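import Pool.Agent.E8T.B5

/-!
# [E8T-X1] the bracket of `A` and `C`
-/

set_option autoImplicit false

open PowerSeries
open N19 (ex)
open NC11 (D)

namespace E8T

theorem D_mul (f g : PowerSeries ℤ) : D (f * g) = D f * g + f * D g := by
  ext n
  simp only [D, coeff_mk, map_add, coeff_mul]
  rw [Finset.mul_sum, ← Finset.sum_add_distrib]
  refine Finset.sum_congr rfl fun p hp => ?_
  rw [← Finset.HasAntidiagonal.mem_antidiagonal.1 hp]
  push_cast
  ring

theorem D_add (f g : PowerSeries ℤ) : D (f + g) = D f + D g := by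
  ext n
  simp only [D, coeff_mk, map_add, mul_add]

theorem D_C (c : ℤ) : D (C c : PowerSeries ℤ) = 0 := by
  ext n
  simp only [D, coeff_mk, coeff_C, map_zero]
  split_ifs with h
  · rw [h]
    simp
  · simp

theorem D_ex {k : ℕ} (hk : 0 < k) (f : PowerSeries ℤ) : D (ex k f) = C (k : ℤ) * ex k (D f) := by
  ext n
  rw [coeff_C_mul]
  simp only [D, ex, coeff_mk]
  split_ifs with h
  · obtain ⟨m, rfl⟩ := h
    rw [Nat.mul_div_cancel_left m hk]
    push_cast
    ring
  · simp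

/-- `C³ = F(q³)` with `F = C (A² + 3 A C + 9 C²)` (from `P_cubic`, `c3_eq`, `Ps_eq`; cancel `27`). -/
theorem C_cubic : Cs ^ 3 = ex 3 (Cs * (As ^ 2 + 3 * As * Cs + 9 * Cs ^ 2)) := by
  have h := P_cubic
  have e : c3 = C 27 * (Cs * (As ^ 2 + 3 * As * Cs + 9 * Cs ^ 2)) := by
    rw [c3_eq, show (C (27 : ℤ) : PowerSeries ℤ) = 27 from rfl]
    ring
  rw [Ps_eq, e, E8X.ex_mul (by norm_num), E8X.ex_ofNat (by norm_num),
    show (C (27 : ℤ) : PowerSeries ℤ) = 27 from rfl] at h
  have h27 : (27 : PowerSeries ℤ) ≠ 0 := by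
    intro h0
    rw [show (27 : PowerSeries ℤ) = C 27 from rfl] at h0
    have := congrArg (constantCoeff (R := ℤ)) h0
    rw [constantCoeff_C, map_zero] at this
    norm_num at this
  refine mul_left_cancel₀ h27 ?_
  rw [← h]
  ring

theorem x1a_ex_sub (f g : PowerSeries ℤ) : ex 3 (f - g) = ex 3 f - ex 3 g := by
  simp only [E8X.F2a_expand (show 0 < 3 by norm_num), map_sub]

/-- For `h = A DC - C DA`: `C² h = (b² h)(q³)`, `b = A - 3 C`. Proof: `C² DC = (DF)(q³)` (differentiate `C_cubic`,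
cancel 3), `A = a(q³)`, `DA = 3 (Da)(q³)`, `a = A + 6 C` (`As_eq`, `aS_eq'`), so
`C² h = A (C² DC) - C³ DA = (a DF - 3 F Da)(q³)`, and `a DF - 3 F Da = (A - 3 C)² (A DC - C DA)` is an identity of
polynomials in `A, C, DA, DC`. -/
theorem br_eq : Cs ^ 2 * (As * D Cs - Cs * D As) = ex 3 ((As - 3 * Cs) ^ 2 * (As * D Cs - Cs * D As)) := by
  have e3 : (C (3 : ℤ) : PowerSeries ℤ) = 3 := rfl
  have e9 : (C (9 : ℤ) : PowerSeries ℤ) = 9 := rfl
  have e6 : (C (6 : ℤ) : PowerSeries ℤ) = 6 := rfl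
  have hF : Cs * (As ^ 2 + 3 * As * Cs + 9 * Cs ^ 2) =
      Cs * (As * As + C 3 * (As * Cs) + C 9 * (Cs * Cs)) := by
    rw [e3, e9]
    ring
  have hDF : D (Cs * (As ^ 2 + 3 * As * Cs + 9 * Cs ^ 2)) =
      D Cs * (As * As + 3 * (As * Cs) + 9 * (Cs * Cs)) +
        Cs * (2 * As * D As + 3 * (D As * Cs + As * D Cs) + 18 * Cs * D Cs) := by
    rw [hF]
    simp only [D_mul, D_add, D_C]
    rw [e3, e9]
    ring
  have hDa : D aS = D As + 6 * D Cs := by
    rw [aS_eq', ← e6]
    simp only [D_mul, D_add, D_C]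
    ring
  have h3 : (3 : PowerSeries ℤ) ≠ 0 := by
    intro h0
    rw [← e3] at h0
    have := congrArg (constantCoeff (R := ℤ)) h0
    rw [constantCoeff_C, map_zero] at this
    norm_num at this
  have h1 : Cs ^ 2 * D Cs = ex 3 (D (Cs * (As ^ 2 + 3 * As * Cs + 9 * Cs ^ 2))) := by
    have h := congrArg D C_cubic
    have hl : D (Cs ^ 3) = 3 * (Cs ^ 2 * D Cs) := by
      rw [show (Cs : PowerSeries ℤ) ^ 3 = Cs * (Cs * Cs) by ring, D_mul, D_mul]
      ring
    rw [D_ex (by norm_num), hl] at h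
    push_cast at h
    rw [e3] at h
    refine mul_left_cancel₀ h3 ?_
    rw [← h]
  have h2 : D As = 3 * ex 3 (D aS) := by
    have h := congrArg D As_eq
    rw [D_ex (by norm_num)] at h
    push_cast at h
    rw [e3] at h
    exact h
  have h5 : As * ex 3 (D (Cs * (As ^ 2 + 3 * As * Cs + 9 * Cs ^ 2))) =
      ex 3 (aS * D (Cs * (As ^ 2 + 3 * As * Cs + 9 * Cs ^ 2))) := by
    rw [E8X.ex_mul (by norm_num), ← As_eq]
  have h6 : ex 3 (Cs * (As ^ 2 + 3 * As * Cs + 9 * Cs ^ 2)) * (3 * ex 3 (D aS)) =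
      ex 3 (C 3 * (Cs * (As ^ 2 + 3 * As * Cs + 9 * Cs ^ 2) * D aS)) := by
    rw [E8X.ex_mul (by norm_num) (C 3), E8X.ex_ofNat (by norm_num),
      E8X.ex_mul (by norm_num) (Cs * (As ^ 2 + 3 * As * Cs + 9 * Cs ^ 2)), e3]
    ring
  calc Cs ^ 2 * (As * D Cs - Cs * D As) = As * (Cs ^ 2 * D Cs) - Cs ^ 3 * D As := by ring
    _ = ex 3 (aS * D (Cs * (As ^ 2 + 3 * As * Cs + 9 * Cs ^ 2))) -
        ex 3 (C 3 * (Cs * (As ^ 2 + 3 * As * Cs + 9 * Cs ^ 2) * D aS)) := by
        rw [h1, h5, C_cubic, ← h6, ← h2]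
    _ = ex 3 (aS * D (Cs * (As ^ 2 + 3 * As * Cs + 9 * Cs ^ 2)) -
        C 3 * (Cs * (As ^ 2 + 3 * As * Cs + 9 * Cs ^ 2) * D aS)) := (x1a_ex_sub _ _).symm
    _ = ex 3 ((As - 3 * Cs) ^ 2 * (As * D Cs - Cs * D As)) := by
        congr 1
        rw [hDF, hDa, aS_eq', e3]
        ring

theorem x1_ex_sub (f g : PowerSeries ℤ) : ex 3 (f - g) = ex 3 f - ex 3 g := by
  simp only [E8X.F2a_expand (show 0 < 3 by norm_num), map_sub]

theorem x1_zero {d g : PowerSeries ℤ} (h0 : coeff 0 d = 0) (h1 : coeff 1 d = 0)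
    (h : Cs ^ 2 * d = ex 3 (g * d)) : d = 0 := by
  obtain ⟨c, hc⟩ : X ∣ Cs := by
    rw [X_dvd_iff, ← coeff_zero_eq_constantCoeff_apply]
    exact Cs_zero
  have hc0 : coeff 0 c = 1 := by
    have h2 := Cs_one
    rw [hc, show (1 : ℕ) = 0 + 1 from rfl, coeff_succ_X_mul] at h2
    exact h2
  have key : ∀ n, coeff n d = 0 := by
    intro n
    induction n using Nat.strong_induction_on with
    | _ n ih =>
      rcases Nat.lt_or_ge n 2 with hn | hn
      · interval_cases n
        · exact h0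
        · exact h1
      · have e1 : coeff (n + 2) (Cs ^ 2 * d) = coeff n d := by
          rw [hc, show (X * c) ^ 2 * d = X ^ 2 * (c ^ 2 * d) by ring, coeff_X_pow_mul, coeff_mul,
            Finset.sum_eq_single (0, n)]
          · have h3 : coeff 0 (c ^ 2) = 1 := by
              rw [coeff_zero_eq_constantCoeff_apply] at hc0 ⊢
              rw [map_pow, hc0, one_pow]
            rw [h3, one_mul]
          · intro b hb hne
            have h4 := Finset.HasAntidiagonal.mem_antidiagonal.1 hb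
            have h5 : b.2 < n := by
              rcases Nat.lt_or_ge b.2 n with h6 | h6
              · exact h6
              · exfalso
                apply hne
                ext
                · show b.1 = 0
                  omega
                · show b.2 = n
                  omega
            rw [ih b.2 h5, mul_zero]
          · intro h4
            exact absurd (Finset.HasAntidiagonal.mem_antidiagonal.2 (Nat.zero_add n)) h4
        have e2 : coeff (n + 2) (ex 3 (g * d)) = 0 := by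
          rw [ex, coeff_mk]
          split_ifs with h3
          · rw [coeff_mul]
            refine Finset.sum_eq_zero fun b hb => ?_
            have h4 := Finset.HasAntidiagonal.mem_antidiagonal.1 hb
            rw [ih b.2 (by omega), mul_zero]
          · rfl
        rw [← e1, h, e2]
  ext n
  rw [key n, map_zero]

/-- Proof: `t = C (A³ - 27 C³)` satisfies the same equation `C² t = (b² t)(q³)`, because
`A³ - 27 C³ = (a³)(q³) - 27 F(q³) = (b³)(q³)` (`a³ - 27 F = (A - 3 C)³`). The difference `d = h - t` satisfies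
`C² d = (b² d)(q³)` and has coefficients `0` at `X^0` and `X^1`; if `d = X^m u`, `u(0) ≠ 0`, `m ≥ 2`, then the left hand
side has order `m + 2` and the right hand side order `3 m > m + 2`. -/
theorem bracket : As * D Cs - Cs * D As = Cs * (As ^ 3 - 27 * Cs ^ 3) := by
  have e27 : (C (27 : ℤ) : PowerSeries ℤ) = 27 := rfl
  have ht : Cs ^ 2 * (Cs * (As ^ 3 - 27 * Cs ^ 3)) =
      ex 3 ((As - 3 * Cs) ^ 2 * (Cs * (As ^ 3 - 27 * Cs ^ 3))) := by
    have h1 : As ^ 3 - 27 * Cs ^ 3 = ex 3 ((As - 3 * Cs) ^ 3) := by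
      rw [← a3_c3, x1_ex_sub, E8X.ex_pow (by norm_num), ← As_eq, c3_eq,
        show 27 * Cs * (As ^ 2 + 3 * As * Cs + 9 * Cs ^ 2) =
          C 27 * (Cs * (As ^ 2 + 3 * As * Cs + 9 * Cs ^ 2)) by rw [e27]; ring,
        E8X.ex_mul (by norm_num) (C 27), E8X.ex_ofNat (by norm_num), ← C_cubic, e27]
    have h2 : Cs ^ 2 * (Cs * (As ^ 3 - 27 * Cs ^ 3)) = Cs ^ 3 * (As ^ 3 - 27 * Cs ^ 3) := by ring
    have h3 : (As - 3 * Cs) ^ 2 * (Cs * (As ^ 3 - 27 * Cs ^ 3)) =
        Cs * (As ^ 2 + 3 * As * Cs + 9 * Cs ^ 2) * (As - 3 * Cs) ^ 3 := by ring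
    rw [h3, E8X.ex_mul (by norm_num), ← C_cubic, h2, ← h1]
  have hd : Cs ^ 2 * (As * D Cs - Cs * D As - Cs * (As ^ 3 - 27 * Cs ^ 3)) =
      ex 3 ((As - 3 * Cs) ^ 2 * (As * D Cs - Cs * D As - Cs * (As ^ 3 - 27 * Cs ^ 3))) := by
    rw [mul_sub, br_eq, ht, ← x1_ex_sub, ← mul_sub]
  refine sub_eq_zero.1 (x1_zero ?_ ?_ hd)
  · have h0 : constantCoeff (R := ℤ) Cs = 0 := by
      rw [← coeff_zero_eq_constantCoeff_apply]
      exact Cs_zero
    have h1 : constantCoeff (R := ℤ) (D Cs) = 0 := by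
      rw [← coeff_zero_eq_constantCoeff_apply]
      simp [D]
    rw [coeff_zero_eq_constantCoeff_apply]
    simp [h0, h1]
  · have a0 := As_zero
    have c0 := Cs_zero
    have c1 := Cs_one
    have h1 : coeff 1 (As * D Cs) = 1 := by
      rw [coeff_mul, Finset.Nat.sum_antidiagonal_eq_sum_range_succ_mk, Finset.sum_range_succ,
        Finset.sum_range_one]
      simp [D, a0, c1]
    have h2 : coeff 1 (Cs * D As) = 0 := by
      rw [coeff_mul, Finset.Nat.sum_antidiagonal_eq_sum_range_succ_mk, Finset.sum_range_succ,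
        Finset.sum_range_one]
      simp only [D, coeff_mk]
      rw [c0]
      simp
    have h3 : coeff 1 (Cs * (As ^ 3 - 27 * Cs ^ 3)) = 1 := by
      rw [coeff_mul, Finset.Nat.sum_antidiagonal_eq_sum_range_succ_mk, Finset.sum_range_succ,
        Finset.sum_range_one]
      have h4 : coeff 0 (As ^ 3 - 27 * Cs ^ 3) = 1 := by
        have b0 : constantCoeff (R := ℤ) Cs = 0 := by
          rw [← coeff_zero_eq_constantCoeff_apply]
          exact Cs_zero
        have b1 : constantCoeff (R := ℤ) As = 1 := by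
          rw [← coeff_zero_eq_constantCoeff_apply]
          exact As_zero
        rw [coeff_zero_eq_constantCoeff_apply]
        simp [b0, b1]
      show coeff 0 Cs * coeff (1 - 0) (As ^ 3 - 27 * Cs ^ 3) +
        coeff 1 Cs * coeff (1 - 1) (As ^ 3 - 27 * Cs ^ 3) = 1
      rw [c0, c1, Nat.sub_self, h4]
      simp
    rw [map_sub, map_sub, h1, h2, h3]
    norm_num

end E8T
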