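import Pool.Agent.E8T.Defs

/-!
# [E8T-A1] generating functions
-/

set_option autoImplicit false

open PowerSeries
open N19 (ex)

namespace E8T

variable {ι κ : Type}

theorem gf_equiv {w : ι → ℤ} {v : κ → ℤ} (e : ι ≃ κ) (h : ∀ i, v (e i) = w i) : gf w = gf v := by
  unfold gf
  ext n
  rw [coeff_mk, coeff_mk]
  congr 1
  exact Nat.card_congr (e.subtypeEquiv fun i => by rw [h])


theorem Adm.equiv {w : ι → ℤ} {v : κ → ℤ} (e : ι ≃ κ) (h : ∀ i, v (e i) = w i) (hw : Adm w) : Adm v := by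
  refine ⟨fun k => ?_, fun n => ?_⟩
  · have h1 := h (e.symm k)
    rw [e.apply_symm_apply] at h1
    rw [h1]
    exact hw.nonneg _
  · have := hw.fin n
    exact Finite.of_equiv _ (e.subtypeEquiv (q := fun k => v k = n) fun i => by rw [h])


/-- pull back along an injection (for instance `Subtype.val`) -/
theorem Adm.comp {w : ι → ℤ} (hw : Adm w) {f : κ → ι} (hf : Function.Injective f) : Adm (fun k => w (f k)) := by
  refine ⟨fun k => hw.nonneg _, fun n => ?_⟩
  have := hw.fin n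
  refine Finite.of_injective (fun k : {k // w (f k) = n} => (⟨f k.1, k.2⟩ : {i // w i = n})) ?_
  intro a b hab
  exact Subtype.ext (hf (congrArg Subtype.val hab))


theorem Adm.sum {w : ι → ℤ} {v : κ → ℤ} (hw : Adm w) (hv : Adm v) : Adm (Sum.elim w v) := by
  refine ⟨?_, fun n => ?_⟩
  · rintro (i | k)
    · exact hw.nonneg i
    · exact hv.nonneg k
  · have h1 : Finite {a // Sum.elim w v (Sum.inl a) = n} := hw.fin n
    have h2 : Finite {b // Sum.elim w v (Sum.inr b) = n} := hv.fin n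
    exact Finite.of_equiv _ (Equiv.subtypeSum (p := fun s : ι ⊕ κ => Sum.elim w v s = n)).symm


theorem gf_sum {w : ι → ℤ} {v : κ → ℤ} (hw : Adm w) (hv : Adm v) : gf (Sum.elim w v) = gf w + gf v := by
  unfold gf
  ext n
  rw [map_add, coeff_mk, coeff_mk, coeff_mk]
  have h1 : Finite {a // Sum.elim w v (Sum.inl a) = (n : ℤ)} := hw.fin n
  have h2 : Finite {b // Sum.elim w v (Sum.inr b) = (n : ℤ)} := hv.fin n
  rw [Nat.card_congr (Equiv.subtypeSum (p := fun s : ι ⊕ κ => Sum.elim w v s = (n : ℤ))),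
    Nat.card_sum]
  push_cast
  rfl


/-- the fibre of a sum of two weight functions -/
noncomputable def a1b_eq {w : ι → ℤ} {v : κ → ℤ} (hw : Adm w) (hv : Adm v) (n : ℕ) :
    {p : ι × κ // w p.1 + v p.2 = (n : ℤ)} ≃
      (Σ ab : {ab // ab ∈ Finset.HasAntidiagonal.antidiagonal n}, {i // w i = (ab.1.1 : ℤ)} × {k // v k = (ab.1.2 : ℤ)}) where
  toFun p := ⟨⟨((w p.1.1).toNat, (v p.1.2).toNat), by
      have h1 := hw.nonneg p.1.1
      have h2 := hv.nonneg p.1.2
      have h3 := p.2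
      rw [Finset.HasAntidiagonal.mem_antidiagonal]
      show (w p.1.1).toNat + (v p.1.2).toNat = n
      omega⟩,
    ⟨p.1.1, by
      have h1 := hw.nonneg p.1.1
      show w p.1.1 = ((w p.1.1).toNat : ℤ)
      omega⟩,
    ⟨p.1.2, by
      have h1 := hv.nonneg p.1.2
      show v p.1.2 = ((v p.1.2).toNat : ℤ)
      omega⟩⟩
  invFun q := ⟨(q.2.1.1, q.2.2.1), by
    have h1 := q.2.1.2
    have h2 := q.2.2.2
    have h3 := Finset.HasAntidiagonal.mem_antidiagonal.1 q.1.2
    show w q.2.1.1 + v q.2.2.1 = (n : ℤ)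
    rw [h1, h2]
    exact_mod_cast h3⟩
  left_inv p := rfl
  right_inv q := by
    obtain ⟨⟨⟨a, b⟩, h⟩, ⟨i, hi⟩, ⟨k, hk⟩⟩ := q
    have ha : (w i).toNat = a := by
      have : w i = (a : ℤ) := hi
      omega
    have hb : (v k).toNat = b := by
      have : v k = (b : ℤ) := hk
      omega
    subst ha
    subst hb
    rfl

theorem Adm.prod {w : ι → ℤ} {v : κ → ℤ} (hw : Adm w) (hv : Adm v) : Adm (fun p : ι × κ => w p.1 + v p.2) := by
  refine ⟨fun p => add_nonneg (hw.nonneg _) (hv.nonneg _), fun n => ?_⟩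
  rcases lt_or_ge n 0 with hn | hn
  · have : IsEmpty {p : ι × κ // w p.1 + v p.2 = n} := by
      refine ⟨fun p => ?_⟩
      have h1 := hw.nonneg p.1.1
      have h2 := hv.nonneg p.1.2
      have h3 := p.2
      omega
    infer_instance
  · obtain ⟨m, rfl⟩ := Int.eq_ofNat_of_zero_le hn
    have h1 : ∀ ab : {ab // ab ∈ Finset.HasAntidiagonal.antidiagonal m},
        Finite ({i // w i = (ab.1.1 : ℤ)} × {k // v k = (ab.1.2 : ℤ)}) := by
      intro ab
      have := hw.fin ab.1.1
      have := hv.fin ab.1.2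
      infer_instance
    exact Finite.of_equiv _ (a1b_eq hw hv m).symm


theorem gf_prod {w : ι → ℤ} {v : κ → ℤ} (hw : Adm w) (hv : Adm v) :
    gf (fun p : ι × κ => w p.1 + v p.2) = gf w * gf v := by
  unfold gf
  ext n
  rw [coeff_mul, coeff_mk]
  have h1 : ∀ ab : {ab // ab ∈ Finset.HasAntidiagonal.antidiagonal n},
      Finite ({i // w i = (ab.1.1 : ℤ)} × {k // v k = (ab.1.2 : ℤ)}) := by
    intro ab
    have := hw.fin ab.1.1
    have := hv.fin ab.1.2
    infer_instance
  rw [Nat.card_congr (a1b_eq hw hv n), Nat.card_sigma,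
    ← Finset.sum_coe_sort (Finset.HasAntidiagonal.antidiagonal n)
      (fun ab => coeff ab.1 (mk fun m => (Nat.card {i // w i = (m : ℤ)} : ℤ)) *
        coeff ab.2 (mk fun m => (Nat.card {k // v k = (m : ℤ)} : ℤ)))]
  push_cast
  refine Finset.sum_congr rfl fun ab _ => ?_
  rw [coeff_mk, coeff_mk, Nat.card_prod]
  push_cast
  rfl


theorem Adm.smul {w : ι → ℤ} (hw : Adm w) {k : ℕ} (hk : 0 < k) : Adm (fun i => (k : ℤ) * w i) := by
  have hk' : (0 : ℤ) < k := by exact_mod_cast hk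
  refine ⟨fun i => mul_nonneg hk'.le (hw.nonneg i), fun n => ?_⟩
  have h1 := hw.fin (n / k)
  refine Finite.of_injective (fun i : {i // (k : ℤ) * w i = n} =>
    (⟨i.1, Int.eq_ediv_of_mul_eq_right hk'.ne' i.2⟩ : {i // w i = n / k})) ?_
  intro a b hab
  exact Subtype.ext (by simpa using hab)


theorem gf_smul (w : ι → ℤ) {k : ℕ} (hk : 0 < k) : gf (fun i => (k : ℤ) * w i) = ex k (gf w) := by
  have hk' : (0 : ℤ) < k := by exact_mod_cast hk
  unfold gf ex
  ext n
  rw [coeff_mk, coeff_mk]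
  split_ifs with h
  · obtain ⟨m, rfl⟩ := h
    rw [coeff_mk, Nat.mul_div_cancel_left _ hk]
    congr 1
    refine Nat.card_congr (Equiv.subtypeEquivRight fun i => ?_)
    push_cast
    constructor
    · intro h1
      exact mul_left_cancel₀ hk'.ne' h1
    · intro h1
      rw [h1]
  · have h1 : IsEmpty {i // (k : ℤ) * w i = (n : ℤ)} := by
      refine ⟨fun i => h ?_⟩
      have h2 : (k : ℤ) ∣ (n : ℤ) := ⟨_, i.2.symm⟩
      exact_mod_cast h2
    rw [Nat.card_of_isEmpty, Nat.cast_zero]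


theorem gf_add_one {w : ι → ℤ} (hw : Adm w) : gf (fun i => 1 + w i) = X * gf w := by
  unfold gf
  ext n
  rcases n with - | n
  · rw [coeff_mk, coeff_zero_X_mul]
    have h1 : IsEmpty {i // 1 + w i = ((0 : ℕ) : ℤ)} := by
      refine ⟨fun i => ?_⟩
      have h2 := hw.nonneg i.1
      have h3 := i.2
      push_cast at h3
      omega
    rw [Nat.card_of_isEmpty, Nat.cast_zero]
  · rw [coeff_mk, coeff_succ_X_mul, coeff_mk]
    congr 1
    refine Nat.card_congr (Equiv.subtypeEquivRight fun i => ?_)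
    push_cast
    constructor
    · intro h
      omega
    · intro h
      omega


/-- split by a class function with finitely many values -/
theorem gf_split {w : ι → ℤ} (hw : Adm w) {m : ℕ} (cl : ι → Fin m) :
    gf w = ∑ c : Fin m, gf (fun i : {i // cl i = c} => w i.1) := by
  unfold gf
  ext n
  rw [map_sum, coeff_mk]
  simp only [coeff_mk]
  have h0 := hw.fin n
  have h1 : ∀ c : Fin m, Finite {i : {i // cl i = c} // w i.1 = (n : ℤ)} := by
    intro c
    refine Finite.of_injective (fun i : {i : {i // cl i = c} // w i.1 = (n : ℤ)} =>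
      (⟨i.1.1, i.2⟩ : {i // w i = (n : ℤ)})) ?_
    intro a b hab
    have h2 : a.1.1 = b.1.1 := by simpa using hab
    exact Subtype.ext (Subtype.ext h2)
  have e : {i // w i = (n : ℤ)} ≃ (Σ c : Fin m, {i : {i // cl i = c} // w i.1 = (n : ℤ)}) :=
    { toFun := fun i => ⟨cl i.1, ⟨⟨i.1, rfl⟩, i.2⟩⟩
      invFun := fun q => ⟨q.2.1.1, q.2.2⟩
      left_inv := fun i => rfl
      right_inv := fun q => by
        obtain ⟨c, ⟨⟨i, hi⟩, hn⟩⟩ := q
        subst hi
        rfl }
  rw [Nat.card_congr e, Nat.card_sigma]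
  push_cast
  rfl


end E8T
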