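import Pool.Agent.E8T.A1

/-!
# [E8T-A2] generating functions over `Fin r → ι`; the norm forms are admissible
-/

set_option autoImplicit false

open PowerSeries

namespace E8T

variable {ι : Type}

theorem a2_both (r : ℕ) : ∀ (w : Fin r → ι → ℤ), (∀ i, Adm (w i)) →
    Adm (fun v : Fin r → ι => ∑ i, w i (v i)) ∧ gf (fun v : Fin r → ι => ∑ i, w i (v i)) = ∏ i, gf (w i) := by
  induction r with
  | zero =>
    intro w _
    refine ⟨⟨fun v => by simp, fun n => inferInstance⟩, ?_⟩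
    ext n
    rw [gf, coeff_mk]
    simp only [Finset.univ_eq_empty, Finset.sum_empty, Finset.prod_empty, coeff_one]
    split_ifs with h
    · subst h
      have h1 : {v : Fin 0 → ι // (0 : ℤ) = ((0 : ℕ) : ℤ)} ≃ Unit :=
        ⟨fun _ => (), fun _ => ⟨fun i => i.elim0, by simp⟩, fun v => Subtype.ext (Subsingleton.elim _ _),
          fun _ => rfl⟩
      rw [Nat.card_congr h1]
      simp
    · have h1 : IsEmpty {v : Fin 0 → ι // (0 : ℤ) = (n : ℤ)} := by
        refine ⟨fun v => h ?_⟩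
        have := v.2
        omega
      rw [Nat.card_of_isEmpty, Nat.cast_zero]
  | succ r ih =>
    intro w hw
    obtain ⟨h1, h2⟩ := ih (fun i => w i.succ) (fun i => hw i.succ)
    have e := Fin.consEquiv (fun _ : Fin (r + 1) => ι)
    have he : ∀ p : ι × (Fin r → ι), ∑ i, w i (Fin.consEquiv (fun _ : Fin (r + 1) => ι) p i) =
        w 0 p.1 + ∑ i : Fin r, w i.succ (p.2 i) := by
      intro p
      rw [Fin.sum_univ_succ]
      rfl
    refine ⟨Adm.equiv (Fin.consEquiv (fun _ : Fin (r + 1) => ι)) he ((hw 0).prod h1), ?_⟩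
    rw [← gf_equiv (Fin.consEquiv (fun _ : Fin (r + 1) => ι)) he, gf_prod (hw 0) h1, h2, Fin.prod_univ_succ]

theorem Adm.pi (r : ℕ) (w : Fin r → ι → ℤ) (hw : ∀ i, Adm (w i)) :
    Adm (fun v : Fin r → ι => ∑ i, w i (v i)) := (a2_both r w hw).1

/-- induction on `r` with `gf_prod`, `Fin.consEquiv` (`Fin.sum_univ_succ`, `Fin.prod_univ_succ`) -/
theorem gf_pi (r : ℕ) (w : Fin r → ι → ℤ) (hw : ∀ i, Adm (w i)) :
    gf (fun v : Fin r → ι => ∑ i, w i (v i)) = ∏ i, gf (w i) := (a2_both r w hw).2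

end E8T
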