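import Pool.Agent.E8T.A1

/-!
# [E8T-A3] the norm forms are admissible
-/

set_option autoImplicit false

open PowerSeries

namespace E8T

theorem a3_fin {ι : Type} (w : ι → ℤ) (f : ι → ℤ × ℤ) (hf : Function.Injective f)
    (h : ∀ i, (f i).1 ^ 2 ≤ 4 * w i ∧ (f i).2 ^ 2 ≤ 4 * w i) (n : ℤ) : Finite {i // w i = n} := by
  have h1 : (Set.Icc (-(4 * n)) (4 * n) ×ˢ Set.Icc (-(4 * n)) (4 * n)).Finite :=
    (Set.finite_Icc _ _).prod (Set.finite_Icc _ _)
  have h2 : ∀ x : {i // w i = n}, f x.1 ∈ Set.Icc (-(4 * n)) (4 * n) ×ˢ Set.Icc (-(4 * n)) (4 * n) := by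
    rintro ⟨i, hi⟩
    obtain ⟨ha, hb⟩ := h i
    rw [hi] at ha hb
    simp only [Set.mem_prod, Set.mem_Icc]
    refine ⟨⟨?_, ?_⟩, ⟨?_, ?_⟩⟩ <;> nlinarith [sq_nonneg (f i).1, sq_nonneg (f i).2, Int.le_self_sq (f i).1, Int.le_self_sq (f i).2, Int.le_self_sq (-(f i).1), Int.le_self_sq (-(f i).2)]
  have := h1.to_subtype
  exact Finite.of_injective (fun x : {i // w i = n} => (⟨f x.1, h2 x⟩ :
    ↥(Set.Icc (-(4 * n)) (4 * n) ×ˢ Set.Icc (-(4 * n)) (4 * n)))) (by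
      intro x y hxy
      simp only [Subtype.mk.injEq] at hxy
      exact Subtype.ext (hf hxy))

theorem adm_Nm : Adm Nm := by
  refine ⟨?_, ?_⟩
  · intro v
    rw [Nm]
    nlinarith [sq_nonneg (v.1 + v.2), sq_nonneg v.1, sq_nonneg v.2, sq_nonneg (2 * v.1 + v.2)]
  · refine a3_fin Nm id Function.injective_id ?_
    intro v
    rw [Nm]
    simp only [id_eq]
    constructor <;> nlinarith [sq_nonneg (2 * v.1 + v.2), sq_nonneg (v.1 + 2 * v.2)]

theorem adm_Na : Adm Na := adm_Nm.smul (k := 3) (by norm_num)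

/-- `Np v = Nm (1 - x - 2 y, 2 x + y)` -/
theorem adm_Np : Adm Np := by
  have h := adm_Nm.comp (f := fun v : ℤ × ℤ => (1 - v.1 - 2 * v.2, 2 * v.1 + v.2)) (by
    intro a b hab
    simp only [Prod.mk.injEq] at hab
    ext <;> omega)
  convert! h using 1
  funext v
  rw [Np, Nm, Nm]
  ring

/-- `Nc v = Nm (1 + 3 x, 3 y)` -/
theorem adm_Nc : Adm Nc := by
  have h := adm_Nm.comp (f := fun v : ℤ × ℤ => (1 + 3 * v.1, 3 * v.2)) (by
    intro a b hab
    simp only [Prod.mk.injEq] at hab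
    ext <;> omega)
  convert! h using 1
  funext v
  rw [Nc, Nm, Nm]
  ring

theorem adm_sq : Adm (fun n : ℤ => n ^ 2) := by
  refine ⟨fun n => sq_nonneg n, a3_fin _ (fun n => (n, 0)) (fun a b h => by simpa using h) ?_⟩
  intro n
  constructor <;> simp <;> nlinarith [sq_nonneg n]

theorem adm_tri : Adm (fun n : ℤ => n ^ 2 + n) := by
  refine ⟨?_, ?_⟩
  · intro n
    show 0 ≤ n ^ 2 + n
    rcases le_or_gt 0 n with h | h <;> nlinarith
  · intro n
    have := adm_sq.comp (f := fun k : ℤ => 2 * k + 1) (by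
      intro a b hab
      have hab' : 2 * a + 1 = 2 * b + 1 := hab
      omega)
    have h2 := this.fin (4 * n + 1)
    refine Finite.of_injective (fun x : {i : ℤ // i ^ 2 + i = n} =>
      (⟨x.1, by have := x.2; linarith [this, sq_nonneg x.1, (by ring : (2 * x.1 + 1) ^ 2 = 4 * (x.1 ^ 2 + x.1) + 1)]⟩ :
        {i : ℤ // (2 * i + 1) ^ 2 = 4 * n + 1})) ?_
    intro x y hxy
    simp only [Subtype.mk.injEq] at hxy
    exact Subtype.ext hxy

end E8T
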