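import Pool.Agent.E8T.B4

/-!
# [E8T-B1] `a = A + 2 P`
-/

set_option autoImplicit false

open PowerSeries
open N19 (ex)

namespace E8T

theorem As_eq : As = ex 3 aS := by
  rw [As, aS, ← gf_smul Nm (by norm_num)]
  rfl

/-- An Eisenstein integer is either `√-3 β` or `± (1 + √-3 β)`. -/
theorem aS_eq : aS = As + 2 * Ps := by
  have h : aS = ∑ c : Fin 3, b4_G ((c : ℕ) : ℤ) := by
    rw [aS, gf_split adm_Nm (fun v => (⟨((v.1 - v.2) % 3).toNat, by omega⟩ : Fin 3))]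
    refine Finset.sum_congr rfl fun c _ => ?_
    refine gf_equiv (Equiv.subtypeEquivRight fun v => ?_) fun i => rfl
    rw [Fin.ext_iff]
    show ((v.1 - v.2) % 3).toNat = (c : ℕ) ↔ (3 : ℤ) ∣ (v.1 - v.2) - ((c : ℕ) : ℤ)
    have := c.2
    omega
  have h2 : b4_G 2 = b4_G (-1) := b4_per (by norm_num)
  rw [h, Fin.sum_univ_three]
  show b4_G 0 + b4_G 1 + b4_G 2 = _
  rw [h2, b4_G0, b4_G1, b4_G2]
  ring

end E8T
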