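import Pool.Agent.E8T.A3

/-!
# [E8T-B1b] `P = 3 C`
-/

set_option autoImplicit false

open PowerSeries
open N19 (ex)

namespace E8T

/-- the map of `Ps_eq` -/
def b1b_f : (ℤ × ℤ) ⊕ ((ℤ × ℤ) ⊕ (ℤ × ℤ)) → ℤ × ℤ
  | Sum.inl v => (v.1 + 2 * v.2, -2 * v.1 - v.2)
  | Sum.inr (Sum.inl v) => (v.1 - v.2, 1 + v.1 + 2 * v.2)
  | Sum.inr (Sum.inr v) => (-1 - 2 * v.1 - v.2, 1 + v.1 - v.2)

theorem b1b_inj : Function.Injective b1b_f := by
  rintro (⟨x, y⟩ | ⟨x, y⟩ | ⟨x, y⟩) (⟨x', y'⟩ | ⟨x', y'⟩ | ⟨x', y'⟩) h <;>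
    simp only [b1b_f, Prod.mk.injEq] at h <;> obtain ⟨h1, h2⟩ := h
  · have hx : x = x' := by omega
    have hy : y = y' := by omega
    rw [hx, hy]
  · exfalso; omega
  · exfalso; omega
  · exfalso; omega
  · have hx : x = x' := by omega
    have hy : y = y' := by omega
    rw [hx, hy]
  · exfalso; omega
  · exfalso; omega
  · exfalso; omega
  · have hx : x = x' := by omega
    have hy : y = y' := by omega
    rw [hx, hy]

theorem b1b_surj : Function.Surjective b1b_f := by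
  rintro ⟨s, t⟩
  have h : (s - t) % 3 = 0 ∨ (s - t) % 3 = 1 ∨ (s - t) % 3 = 2 := by omega
  rcases h with h | h | h
  · refine ⟨Sum.inl ((-s - 2 * t) / 3, (2 * s + t) / 3), ?_⟩
    simp only [b1b_f, Prod.mk.injEq]
    constructor <;> omega
  · refine ⟨Sum.inr (Sum.inr ((t - s - 2) / 3, 1 + (t - s - 2) / 3 - t)), ?_⟩
    simp only [b1b_f, Prod.mk.injEq]
    constructor <;> omega
  · refine ⟨Sum.inr (Sum.inl ((t - 1 - s) / 3 + s, (t - 1 - s) / 3)), ?_⟩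
    simp only [b1b_f, Prod.mk.injEq]
    constructor <;> omega

/-- If `α = 1 mod √-3` then exactly one of `α`, `ω α`, `ω² α` is `1 mod 3` (`ω = ρ - 1`, `ω (a + b ρ) = (-a - b) + a ρ`,
`ω² (a + b ρ) = b + (-a - b) ρ`). So `ℤ × ℤ ≃ (ℤ × ℤ) ⊕ (ℤ × ℤ) ⊕ (ℤ × ℤ)`, where the element `(x, y)` of the `i`-th copy is
mapped to the `(s, t)` with `1 + √-3 (s + t ρ) = ω^i (1 + 3 (x + y ρ))`. -/
theorem Ps_eq : Ps = 3 * Cs := by
  have h : gf (Sum.elim Nc (Sum.elim Nc Nc)) = gf Np := by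
    refine gf_equiv (Equiv.ofBijective b1b_f ⟨b1b_inj, b1b_surj⟩) ?_
    rintro (⟨x, y⟩ | ⟨x, y⟩ | ⟨x, y⟩) <;>
      simp only [Equiv.ofBijective_apply, b1b_f, Np, Nc, Nm, Sum.elim_inl, Sum.elim_inr] <;> ring
  rw [gf_sum adm_Nc (adm_Nc.sum adm_Nc), gf_sum adm_Nc adm_Nc] at h
  unfold Ps Cs
  rw [← h]
  ring

theorem Cs_zero : coeff 0 Cs = 0 := by
  unfold Cs gf
  rw [coeff_mk]
  have : IsEmpty {v // Nc v = ((0 : ℕ) : ℤ)} := by
    refine ⟨fun v => ?_⟩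
    have h := v.2
    unfold Nc at h
    push_cast at h
    omega
  rw [Nat.card_of_isEmpty]
  rfl

/-- the values of the form `Nm` that are at most `1` -/
theorem b1b_small {a b : ℤ} (h : a ^ 2 + a * b + b ^ 2 ≤ 1) : -1 ≤ b ∧ b ≤ 1 ∧ -1 ≤ a ∧ a ≤ 1 := by
  have h1 : (2 * a + b) ^ 2 + 3 * b ^ 2 ≤ 4 := by nlinarith
  have h2 : (2 * b + a) ^ 2 + 3 * a ^ 2 ≤ 4 := by nlinarith
  have hb : b ^ 2 ≤ 1 := by nlinarith [sq_nonneg (2 * a + b), sq_nonneg b]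
  have ha : a ^ 2 ≤ 1 := by nlinarith [sq_nonneg (2 * b + a), sq_nonneg a]
  refine ⟨by nlinarith, by nlinarith, by nlinarith, by nlinarith⟩

theorem Cs_one : coeff 1 Cs = 1 := by
  unfold Cs gf
  rw [coeff_mk]
  have h1 : Nat.card {v // Nc v = ((1 : ℕ) : ℤ)} = 1 := by
    rw [Nat.card_eq_one_iff_unique]
    refine ⟨⟨fun v w => ?_⟩, ⟨⟨(0, 0), by simp [Nc, Nm]⟩⟩⟩
    have key : ∀ v : {v // Nc v = ((1 : ℕ) : ℤ)}, v.1 = (0, 0) := by
      rintro ⟨⟨x, y⟩, h⟩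
      simp only [Nc, Nm, Nat.cast_one] at h
      have h' : (1 + 3 * x) ^ 2 + (1 + 3 * x) * (3 * y) + (3 * y) ^ 2 ≤ 1 := by
        have : (1 + 3 * x) ^ 2 + (1 + 3 * x) * (3 * y) + (3 * y) ^ 2 = 1 + 3 * (2 * x + y) +
          9 * (x ^ 2 + x * y + y ^ 2) := by ring
        rw [this, h]
      obtain ⟨h2, h3, h4, h5⟩ := b1b_small h'
      have hx : x = 0 := by omega
      have hy : y = 0 := by omega
      simp [hx, hy]
    exact Subtype.ext ((key v).trans (key w).symm)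
  rw [h1]
  rfl

theorem As_zero : coeff 0 As = 1 := by
  unfold As gf
  rw [coeff_mk]
  have h1 : Nat.card {v // Na v = ((0 : ℕ) : ℤ)} = 1 := by
    rw [Nat.card_eq_one_iff_unique]
    refine ⟨⟨fun v w => ?_⟩, ⟨⟨(0, 0), by simp [Na, Nm]⟩⟩⟩
    have key : ∀ v : {v // Na v = ((0 : ℕ) : ℤ)}, v.1 = (0, 0) := by
      rintro ⟨⟨x, y⟩, h⟩
      simp only [Na, Nm, Nat.cast_zero] at h
      have h0 : x ^ 2 + x * y + y ^ 2 = 0 := by omega
      have hy : y = 0 := by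
        have : y ^ 2 ≤ 0 := by nlinarith [sq_nonneg (2 * x + y)]
        exact pow_eq_zero_iff (two_ne_zero) |>.1 (le_antisymm this (sq_nonneg y))
      have hx : x = 0 := by
        have : x ^ 2 ≤ 0 := by nlinarith [sq_nonneg (2 * y + x)]
        exact pow_eq_zero_iff (two_ne_zero) |>.1 (le_antisymm this (sq_nonneg x))
      simp [hx, hy]
    exact Subtype.ext ((key v).trans (key w).symm)
  rw [h1]
  rfl

end E8T
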