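import Pool.Agent.E8T.A3

/-!
# [E8T-B2] multiplication by a unit in one coordinate
-/

set_option autoImplicit false

open PowerSeries

namespace E8T

def b2_tau : ℤ × ℤ ≃ ℤ × ℤ where
  toFun v := (-v.1 - v.2, v.1 + 1)
  invFun v := (v.2 - 1, -v.1 - v.2 + 1)
  left_inv v := by
    refine Prod.ext ?_ ?_
    · show v.1 + 1 - 1 = v.1
      ring
    · show -(-v.1 - v.2) - (v.1 + 1) + 1 = v.2
      ring
  right_inv v := by
    refine Prod.ext ?_ ?_
    · show -(v.2 - 1) - (-v.1 - v.2 + 1) = v.1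
      ring
    · show v.2 - 1 + 1 = v.2
      ring

theorem b2_Np (v : ℤ × ℤ) : Np (b2_tau v) = Np v := by
  show 1 - 3 * (v.1 + 1) + 3 * ((-v.1 - v.2) ^ 2 + (-v.1 - v.2) * (v.1 + 1) + (v.1 + 1) ^ 2) =
    1 - 3 * v.2 + 3 * (v.1 ^ 2 + v.1 * v.2 + v.2 ^ 2)
  ring

def b2_e : E3 ≃ E3 := Equiv.prodCongr b2_tau (Equiv.refl _)

theorem b2_res (v : E3) : res (b2_e v) = res v - 1 - 3 * v.1.1 := by
  show ((-v.1.1 - v.1.2) - (v.1.1 + 1)) + (v.2.1.1 - v.2.1.2) + (v.2.2.1 - v.2.2.2) =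
    (v.1.1 - v.1.2) + (v.2.1.1 - v.2.1.2) + (v.2.2.1 - v.2.2.2) - 1 - 3 * v.1.1
  ring

/-- the weight -/
def b2_W (v : E3) : ℤ := Np v.1 + (Np v.2.1 + Np v.2.2)

theorem b2_W_e (v : E3) : b2_W (b2_e v) = b2_W v := by
  show Np (b2_tau v.1) + (Np v.2.1 + Np v.2.2) = Np v.1 + (Np v.2.1 + Np v.2.2)
  rw [b2_Np]

/-- the sum over a class -/
noncomputable def b2_A (k : ℤ) : PowerSeries ℤ := gf (fun v : {v : E3 // (3 : ℤ) ∣ res v - k} => b2_W v.1)

theorem b2_step (k : ℤ) : b2_A (k + 1) = b2_A k := by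
  refine gf_equiv (b2_e.subtypeEquiv fun a => ?_) fun i => ?_
  · rw [b2_res]
    constructor
    · intro h
      have e : res a - 1 - 3 * a.1.1 - k = (res a - (k + 1)) - 3 * a.1.1 := by ring
      rw [e]
      exact dvd_sub h (dvd_mul_right _ _)
    · intro h
      have e : res a - (k + 1) = (res a - 1 - 3 * a.1.1 - k) + 3 * a.1.1 := by ring
      rw [e]
      exact dvd_add h (dvd_mul_right _ _)
  · exact b2_W_e i.1

theorem b2_adm : Adm b2_W := adm_Np.prod (adm_Np.prod adm_Np)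

def b2_cl (v : E3) : Fin 3 := ⟨(res v % 3).toNat, by omega⟩

theorem b2_cl_iff (v : E3) (c : Fin 3) : b2_cl v = c ↔ (3 : ℤ) ∣ res v - (c : ℕ) := by
  rw [Fin.ext_iff]
  show (res v % 3).toNat = (c : ℕ) ↔ _
  have := c.2
  omega

theorem b2_split : gf b2_W = ∑ c : Fin 3, b2_A ((c : ℕ) : ℤ) := by
  rw [gf_split b2_adm b2_cl]
  refine Finset.sum_congr rfl fun c _ => ?_
  exact gf_equiv (Equiv.subtypeEquivRight fun v => b2_cl_iff v c) fun i => rfl

/-- `P³` is the generating function of `W v = Np v.1 + Np v.2.1 + Np v.2.2` on `E3`. The bijection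
`β = (x, y) ↦ (-x - y, x + 1)` of `ℤ × ℤ` (`α ↦ ω α` for `α = 1 + √-3 β`) satisfies `Np (-x - y, x + 1) = Np (x, y)` and
lowers `x - y` by `1` modulo `3`; applied to the first coordinate it permutes the three classes of `res v` modulo `3`. -/
theorem P_cube : Ps ^ 3 =
    3 * gf (fun v : {v : E3 // (3 : ℤ) ∣ res v} => Np v.1.1 + (Np v.1.2.1 + Np v.1.2.2)) := by
  have h1 : Ps ^ 3 = gf b2_W := by
    have h2 : gf b2_W = gf Np * (gf Np * gf Np) := by
      rw [← gf_prod adm_Np adm_Np, ← gf_prod adm_Np (adm_Np.prod adm_Np)]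
      rfl
    rw [h2, Ps]
    ring
  have h3 : gf (fun v : {v : E3 // (3 : ℤ) ∣ res v} => Np v.1.1 + (Np v.1.2.1 + Np v.1.2.2)) = b2_A 0 :=
    gf_equiv (Equiv.subtypeEquivRight fun v => by rw [sub_zero]) fun i => rfl
  have h4 : b2_A 1 = b2_A 0 := b2_step 0
  have h5 : b2_A 2 = b2_A 1 := b2_step 1
  rw [h1, h3, b2_split, Fin.sum_univ_three]
  show b2_A 0 + b2_A 1 + b2_A 2 = 3 * b2_A 0
  rw [h5, h4]
  ring

end E8T
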