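import Pool.Agent.E8T.A3

/-!
# [E8T-B3] the unitary transformation of order 3
-/

set_option autoImplicit false

open PowerSeries
open N19 (ex)

namespace E8T

def b3_f (v : E3) : E3 :=
  let k := res v / 3
  let a2 := v.2.1.1
  let b1 := v.1.2
  let b2 := v.2.1.2
  let a3 := v.2.2.1
  let b3 := v.2.2.2
  ((1 - (k + (b1 + b2 + b3)), 2 * k + (b1 + b2 + b3)),
    ((-((k - a2 + b3) + (b1 + a2 - a3 - b3)), 2 * (k - a2 + b3) + (b1 + a2 - a3 - b3)),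
      (-((k + b2 - a3) + (b1 - a2 - b2 + a3)), 2 * (k + b2 - a3) + (b1 - a2 - b2 + a3))))

def b3_g (v : E3) : E3 :=
  let m := (res v - 1) / 3
  let u2 := v.1.2
  let v1 := v.2.1.1
  let v2 := v.2.1.2
  let w1 := v.2.2.1
  let w2 := v.2.2.2
  ((m + (u2 + v2 + w2), -(2 * m + (u2 + v2 + w2))),
    (((m + v2 - w1) + (u2 - v1 - v2 + w1), -(2 * (m + v2 - w1) + (u2 - v1 - v2 + w1))),
      ((m - v1 + w2) + (u2 + v1 - w1 - w2), -(2 * (m - v1 + w2) + (u2 + v1 - w1 - w2)))))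

theorem b3_f_mem (v : E3) (h : (3 : ℤ) ∣ res v) : (3 : ℤ) ∣ res (b3_f v) - 1 := by
  obtain ⟨⟨a1, b1⟩, ⟨a2, b2⟩, ⟨a3, b3⟩⟩ := v
  simp only [res, b3_f] at h ⊢
  omega

theorem b3_g_mem (v : E3) (h : (3 : ℤ) ∣ res v - 1) : (3 : ℤ) ∣ res (b3_g v) := by
  obtain ⟨⟨a1, b1⟩, ⟨a2, b2⟩, ⟨a3, b3⟩⟩ := v
  simp only [res, b3_g] at h ⊢
  omega

theorem b3_gf (v : E3) (h : (3 : ℤ) ∣ res v) : b3_g (b3_f v) = v := by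
  obtain ⟨⟨a1, b1⟩, ⟨a2, b2⟩, ⟨a3, b3⟩⟩ := v
  simp only [res, b3_f, b3_g, Prod.mk.injEq] at h ⊢
  refine ⟨⟨?_, ?_⟩, ⟨?_, ?_⟩, ?_, ?_⟩ <;> omega

theorem b3_fg (v : E3) (h : (3 : ℤ) ∣ res v - 1) : b3_f (b3_g v) = v := by
  obtain ⟨⟨a1, b1⟩, ⟨a2, b2⟩, ⟨a3, b3⟩⟩ := v
  simp only [res, b3_f, b3_g, Prod.mk.injEq] at h ⊢
  refine ⟨⟨?_, ?_⟩, ⟨?_, ?_⟩, ?_, ?_⟩ <;> omega

theorem b3_norm (v : E3) (h : (3 : ℤ) ∣ res v) :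
    3 * (Nm (b3_f v).1 + (Nm (b3_f v).2.1 + Nm (b3_f v).2.2)) = Np v.1 + (Np v.2.1 + Np v.2.2) := by
  obtain ⟨⟨a1, b1⟩, ⟨a2, b2⟩, ⟨a3, b3⟩⟩ := v
  obtain ⟨k, hk⟩ := h
  have hk' : res ((a1, b1), (a2, b2), (a3, b3)) / 3 = k := by omega
  have ha : a1 = 3 * k + b1 - (a2 - b2) - (a3 - b3) := by
    simp only [res] at hk
    linarith
  simp only [b3_f, Nm, Np, hk']
  rw [ha]
  ring

def b3_e : {v : E3 // (3 : ℤ) ∣ res v} ≃ {v : E3 // (3 : ℤ) ∣ res v - 1} where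
  toFun v := ⟨b3_f v.1, b3_f_mem v.1 v.2⟩
  invFun v := ⟨b3_g v.1, b3_g_mem v.1 v.2⟩
  left_inv v := Subtype.ext (b3_gf v.1 v.2)
  right_inv v := Subtype.ext (b3_fg v.1 v.2)

/-- For `x_i = 1 + √-3 β_i` put `U = (x₁ + x₂ + x₃)/3 = 1 - (β₁ + β₂ + β₃)/√-3`, `V = (x₁ + ω x₂ + ω² x₃)/3 =
-(β₁ + ω β₂ + ω² β₃)/√-3`, `W = (x₁ + ω² x₂ + ω x₃)/3 = -(β₁ + ω² β₂ + ω β₃)/√-3`. These are Eisenstein integers if and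
only if `√-3` divides `β₁ + β₂ + β₃`, i.e. `3 ∣ res (β₁, β₂, β₃)`; the inverse is `β₁ = (U + V + W - 1)/√-3`,
`β₂ = (U + ω² V + ω W - 1)/√-3`, `β₃ = (U + ω V + ω² W - 1)/√-3`, defined if and only if `3 ∣ res (U, V, W) - 1`;
and `3 (N U + N V + N W) = N x₁ + N x₂ + N x₃`. In coordinates: `√-3 (x, y) = (-x - 2 y, 2 x + y)`,
`(a, b)/√-3 = ((a + 2 b)/3, -(2 a + b)/3)`, `ω (a, b) = (-a - b, a)`, `ω² (a, b) = (b, -a - b)`. -/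
theorem T_zero : gf (fun v : {v : E3 // (3 : ℤ) ∣ res v} => Np v.1.1 + (Np v.1.2.1 + Np v.1.2.2)) =
    ex 3 (gf (fun v : {v : E3 // (3 : ℤ) ∣ res v - 1} => Nm v.1.1 + (Nm v.1.2.1 + Nm v.1.2.2))) := by
  have h := gf_smul (fun v : {v : E3 // (3 : ℤ) ∣ res v - 1} => Nm v.1.1 + (Nm v.1.2.1 + Nm v.1.2.2))
    (k := 3) (by norm_num)
  rw [← h]
  refine gf_equiv b3_e ?_
  intro v
  exact b3_norm v.1 v.2

end E8T
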