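import Pool.Agent.E8T.A3

/-!
# [E8T-B4] the classes of a triple modulo `√-3`
-/

set_option autoImplicit false

open PowerSeries

namespace E8T

/-- the sum over a class modulo `√-3` -/
noncomputable def b4_G (k : ℤ) : PowerSeries ℤ := gf (fun v : {v : ℤ × ℤ // (3 : ℤ) ∣ (v.1 - v.2) - k} => Nm v.1)

theorem b4_per {k l : ℤ} (h : (3 : ℤ) ∣ k - l) : b4_G k = b4_G l := by
  refine gf_equiv (Equiv.subtypeEquivRight fun v => ?_) fun i => rfl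
  constructor
  · intro h1
    have e : (v.1 - v.2) - l = ((v.1 - v.2) - k) + (k - l) := by ring
    rw [e]
    exact dvd_add h1 h
  · intro h1
    have e : (v.1 - v.2) - k = ((v.1 - v.2) - l) - (k - l) := by ring
    rw [e]
    exact dvd_sub h1 h

def b4_e0 : ℤ × ℤ ≃ {v : ℤ × ℤ // (3 : ℤ) ∣ (v.1 - v.2) - 0} where
  toFun v := ⟨(-v.1 - 2 * v.2, 2 * v.1 + v.2), by
    show (3 : ℤ) ∣ (-v.1 - 2 * v.2) - (2 * v.1 + v.2) - 0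
    omega⟩
  invFun v := ((v.1.1 + 2 * v.1.2) / 3, -((2 * v.1.1 + v.1.2) / 3))
  left_inv v := by
    refine Prod.ext ?_ ?_
    · show ((-v.1 - 2 * v.2) + 2 * (2 * v.1 + v.2)) / 3 = v.1
      omega
    · show -((2 * (-v.1 - 2 * v.2) + (2 * v.1 + v.2)) / 3) = v.2
      omega
  right_inv v := by
    have h := v.2
    refine Subtype.ext (Prod.ext ?_ ?_)
    · show -((v.1.1 + 2 * v.1.2) / 3) - 2 * (-((2 * v.1.1 + v.1.2) / 3)) = v.1.1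
      omega
    · show 2 * ((v.1.1 + 2 * v.1.2) / 3) + -((2 * v.1.1 + v.1.2) / 3) = v.1.2
      omega

theorem b4_G0 : b4_G 0 = As := by
  symm
  refine gf_equiv b4_e0 fun v => ?_
  show (-v.1 - 2 * v.2) ^ 2 + (-v.1 - 2 * v.2) * (2 * v.1 + v.2) + (2 * v.1 + v.2) ^ 2 =
    3 * (v.1 ^ 2 + v.1 * v.2 + v.2 ^ 2)
  ring

def b4_e1 : ℤ × ℤ ≃ {v : ℤ × ℤ // (3 : ℤ) ∣ (v.1 - v.2) - 1} where
  toFun v := ⟨(1 - v.1 - 2 * v.2, 2 * v.1 + v.2), by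
    show (3 : ℤ) ∣ (1 - v.1 - 2 * v.2) - (2 * v.1 + v.2) - 1
    omega⟩
  invFun v := ((v.1.1 - 1 + 2 * v.1.2) / 3, -((2 * (v.1.1 - 1) + v.1.2) / 3))
  left_inv v := by
    refine Prod.ext ?_ ?_
    · show ((1 - v.1 - 2 * v.2) - 1 + 2 * (2 * v.1 + v.2)) / 3 = v.1
      omega
    · show -((2 * ((1 - v.1 - 2 * v.2) - 1) + (2 * v.1 + v.2)) / 3) = v.2
      omega
  right_inv v := by
    have h := v.2
    refine Subtype.ext (Prod.ext ?_ ?_)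
    · show 1 - ((v.1.1 - 1 + 2 * v.1.2) / 3) - 2 * (-((2 * (v.1.1 - 1) + v.1.2) / 3)) = v.1.1
      omega
    · show 2 * ((v.1.1 - 1 + 2 * v.1.2) / 3) + -((2 * (v.1.1 - 1) + v.1.2) / 3) = v.1.2
      omega

theorem b4_G1 : b4_G 1 = Ps := by
  symm
  refine gf_equiv b4_e1 fun v => ?_
  show (1 - v.1 - 2 * v.2) ^ 2 + (1 - v.1 - 2 * v.2) * (2 * v.1 + v.2) + (2 * v.1 + v.2) ^ 2 =
    1 - 3 * v.2 + 3 * (v.1 ^ 2 + v.1 * v.2 + v.2 ^ 2)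
  ring

def b4_neg (k : ℤ) : {v : ℤ × ℤ // (3 : ℤ) ∣ (v.1 - v.2) - k} ≃ {v : ℤ × ℤ // (3 : ℤ) ∣ (v.1 - v.2) - (-k)} :=
  (Equiv.neg (ℤ × ℤ)).subtypeEquiv fun v => by
    show (3 : ℤ) ∣ (v.1 - v.2) - k ↔ (3 : ℤ) ∣ (-v.1 - -v.2) - (-k)
    omega

theorem b4_G2 : b4_G (-1) = Ps := by
  rw [← b4_G1]
  symm
  refine gf_equiv (b4_neg 1) fun v => ?_
  show (-v.1.1) ^ 2 + (-v.1.1) * (-v.1.2) + (-v.1.2) ^ 2 = v.1.1 ^ 2 + v.1.1 * v.1.2 + v.1.2 ^ 2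
  ring

theorem b4_step {κ : Type} (r u : κ → ℤ) (hu : Adm u) (k : ℤ) :
    gf (fun v : {v : (ℤ × ℤ) × κ // (3 : ℤ) ∣ (v.1.1 - v.1.2) + r v.2 - k} => Nm v.1.1 + u v.1.2) =
      ∑ c : Fin 3, b4_G ((c : ℕ) : ℤ) * gf (fun x : {x : κ // (3 : ℤ) ∣ r x - (k - ((c : ℕ) : ℤ))} => u x.1) := by
  have hadm : Adm (fun v : {v : (ℤ × ℤ) × κ // (3 : ℤ) ∣ (v.1.1 - v.1.2) + r v.2 - k} => Nm v.1.1 + u v.1.2) :=
    (adm_Nm.prod hu).comp (f := fun v : {v : (ℤ × ℤ) × κ // (3 : ℤ) ∣ (v.1.1 - v.1.2) + r v.2 - k} => v.1)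
      Subtype.val_injective
  rw [gf_split hadm (fun i => (⟨((i.1.1.1 - i.1.1.2) % 3).toNat, by omega⟩ : Fin 3))]
  refine Finset.sum_congr rfl fun c _ => ?_
  have a1 : Adm (fun v : {v : ℤ × ℤ // (3 : ℤ) ∣ (v.1 - v.2) - ((c : ℕ) : ℤ)} => Nm v.1) :=
    adm_Nm.comp (f := fun v : {v : ℤ × ℤ // (3 : ℤ) ∣ (v.1 - v.2) - ((c : ℕ) : ℤ)} => v.1) Subtype.val_injective
  have a2 : Adm (fun x : {x : κ // (3 : ℤ) ∣ r x - (k - ((c : ℕ) : ℤ))} => u x.1) :=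
    hu.comp (f := fun x : {x : κ // (3 : ℤ) ∣ r x - (k - ((c : ℕ) : ℤ))} => x.1) Subtype.val_injective
  rw [b4_G, ← gf_prod a1 a2]
  have hcl : ∀ i : {v : (ℤ × ℤ) × κ // (3 : ℤ) ∣ (v.1.1 - v.1.2) + r v.2 - k},
      ((⟨((i.1.1.1 - i.1.1.2) % 3).toNat, by omega⟩ : Fin 3) = c) ↔
        (3 : ℤ) ∣ (i.1.1.1 - i.1.1.2) - ((c : ℕ) : ℤ) := by
    intro i
    rw [Fin.ext_iff]
    show ((i.1.1.1 - i.1.1.2) % 3).toNat = (c : ℕ) ↔ _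
    have := c.2
    omega
  refine gf_equiv
    { toFun := fun i => (⟨i.1.1.1, (hcl i.1).1 i.2⟩, ⟨i.1.1.2, ?_⟩)
      invFun := fun p => ⟨⟨(p.1.1, p.2.1), ?_⟩, (hcl _).2 p.1.2⟩
      left_inv := fun i => rfl
      right_inv := fun p => rfl } fun i => rfl
  · have h1 := i.1.2
    have h2 := (hcl i.1).1 i.2
    omega
  · have h1 := p.1.2
    have h2 := p.2.2
    show (3 : ℤ) ∣ (p.1.1.1 - p.1.1.2) + r p.2.1 - k
    omega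

noncomputable def b4_H (k : ℤ) : PowerSeries ℤ :=
  gf (fun v : {v : (ℤ × ℤ) × (ℤ × ℤ) // (3 : ℤ) ∣ (v.1.1 - v.1.2) + (v.2.1 - v.2.2) - k} => Nm v.1.1 + Nm v.1.2)

theorem b4_H_eq (k : ℤ) : b4_H k = b4_G 0 * b4_G k + b4_G 1 * b4_G (k - 1) + b4_G 2 * b4_G (k - 2) := by
  have h := b4_step (κ := ℤ × ℤ) (fun v => v.1 - v.2) Nm adm_Nm k
  rw [Fin.sum_univ_three] at h
  have e : b4_H k = b4_G 0 * b4_G (k - 0) + b4_G 1 * b4_G (k - 1) + b4_G 2 * b4_G (k - 2) := h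
  rw [e, sub_zero]

/-- The sum of `X^(Nm v)` over the `v` in a class `x - y = c mod 3` is `A` for `c = 0` and `P` for `c = 1, 2`
(as in B1: `√-3 β`, `1 + √-3 β`, `-(1 + √-3 β)`). The triples of classes with sum `1 mod 3` are
`(1,0,0)` (3 permutations), `(2,2,0)` (3), `(1,1,2)` (3). -/
theorem T_one : gf (fun v : {v : E3 // (3 : ℤ) ∣ res v - 1} => Nm v.1.1 + (Nm v.1.2.1 + Nm v.1.2.2)) =
    3 * (Ps * As ^ 2 + Ps ^ 2 * As + Ps ^ 3) := by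
  have h := b4_step (κ := (ℤ × ℤ) × (ℤ × ℤ)) (fun v => (v.1.1 - v.1.2) + (v.2.1 - v.2.2)) (fun v => Nm v.1 + Nm v.2)
    (adm_Nm.prod adm_Nm) 1
  rw [Fin.sum_univ_three] at h
  have e : gf (fun v : {v : (ℤ × ℤ) × ((ℤ × ℤ) × (ℤ × ℤ)) //
      (3 : ℤ) ∣ (v.1.1 - v.1.2) + ((v.2.1.1 - v.2.1.2) + (v.2.2.1 - v.2.2.2)) - 1} =>
        Nm v.1.1 + (Nm v.1.2.1 + Nm v.1.2.2)) =
      b4_G 0 * b4_H (1 - 0) + b4_G 1 * b4_H (1 - 1) + b4_G 2 * b4_H (1 - 2) := h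
  have e2 : gf (fun v : {v : E3 // (3 : ℤ) ∣ res v - 1} => Nm v.1.1 + (Nm v.1.2.1 + Nm v.1.2.2)) =
      gf (fun v : {v : (ℤ × ℤ) × ((ℤ × ℤ) × (ℤ × ℤ)) //
      (3 : ℤ) ∣ (v.1.1 - v.1.2) + ((v.2.1.1 - v.2.1.2) + (v.2.2.1 - v.2.2.2)) - 1} =>
        Nm v.1.1 + (Nm v.1.2.1 + Nm v.1.2.2)) := by
    refine gf_equiv (Equiv.subtypeEquivRight fun v => ?_) fun i => rfl
    unfold res
    rw [add_assoc]
  rw [e2, e, b4_H_eq, b4_H_eq, b4_H_eq]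
  have g0 := b4_G0
  have g1 := b4_G1
  have g2 : b4_G 2 = Ps := by rw [← b4_G2]; exact b4_per (by norm_num)
  have g3 : b4_G (1 - 0) = Ps := by rw [sub_zero, g1]
  have g4 : b4_G (1 - 0 - 1) = As := by rw [← g0]; exact b4_per (by norm_num)
  have g5 : b4_G (1 - 0 - 2) = Ps := by rw [← b4_G2]; exact b4_per (by norm_num)
  have g6 : b4_G (1 - 1) = As := by rw [← g0]; exact b4_per (by norm_num)
  have g7 : b4_G (1 - 1 - 1) = Ps := by rw [← b4_G2]; exact b4_per (by norm_num)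
  have g8 : b4_G (1 - 1 - 2) = Ps := by rw [← g1]; exact b4_per (by norm_num)
  have g9 : b4_G (1 - 2) = Ps := by rw [← b4_G2]; exact b4_per (by norm_num)
  have g10 : b4_G (1 - 2 - 1) = Ps := by rw [← g1]; exact b4_per (by norm_num)
  have g11 : b4_G (1 - 2 - 2) = As := by rw [← g0]; exact b4_per (by norm_num)
  rw [g3, g4, g5, g6, g7, g8, g9, g10, g11, g0, g1, g2]
  ring

end E8T
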