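import Pool.Agent.E8T.B1
import Pool.Agent.E8T.B1b
import Pool.Agent.E8T.B2
import Pool.Agent.E8T.B3
import Pool.Agent.E8T.B4

/-!
# [E8T-B5] the cubic identity
-/

set_option autoImplicit false

open PowerSeries
open N19 (ex)

namespace E8T

theorem P_cubic : Ps ^ 3 = ex 3 c3 := by
  rw [P_cube, T_zero, T_one, c3, show (3 : PowerSeries ℤ) = C 3 from rfl,
    show (9 : PowerSeries ℤ) = C 9 from rfl, E8X.ex_mul (by norm_num), E8X.ex_ofNat (by norm_num),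
    E8X.ex_mul (by norm_num), E8X.ex_ofNat (by norm_num), ← mul_assoc, ← map_mul]
  norm_num

/-- `c³ = 27 C (A² + 3 A C + 9 C²)` -/
theorem c3_eq : c3 = 27 * Cs * (As ^ 2 + 3 * As * Cs + 9 * Cs ^ 2) := by
  rw [c3, Ps_eq]
  ring

theorem aS_eq' : aS = As + 6 * Cs := by
  rw [aS_eq, Ps_eq]
  ring

/-- `a³ - c³ = b³`, `b = A - 3 C` -/
theorem a3_c3 : aS ^ 3 - c3 = (As - 3 * Cs) ^ 3 := by
  rw [aS_eq', c3_eq]
  ring

end E8T
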