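import Pool.Agent.E8T.A3

/-!
# [E8T-C1] `a(q) = φ(q) φ(q³) + 4 q ψ(q²) ψ(q⁶)`
-/

set_option autoImplicit false

open PowerSeries
open N19 (ex psi phs)

namespace E8T

theorem c1_card_zero {w : ℤ → ℤ} {n : ℤ} (h : ∀ i, w i ≠ n) : Nat.card {i // w i = n} = 0 := by
  have : IsEmpty {i // w i = n} := ⟨fun i => h i.1 i.2⟩
  simp

theorem c1_card_one {w : ℤ → ℤ} {n : ℤ} (a : ℤ) (h : ∀ i, w i = n ↔ i = a) :
    Nat.card {i // w i = n} = 1 := by
  rw [Nat.card_congr (Equiv.subtypeEquivRight h), Nat.card_eq_fintype_card]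
  exact Fintype.card_unique

theorem c1_card_two {w : ℤ → ℤ} {n : ℤ} (a b : ℤ) (hab : a ≠ b) (h : ∀ i, w i = n ↔ i = a ∨ i = b) :
    Nat.card {i // w i = n} = 2 := by
  rw [Nat.card_congr (Equiv.subtypeEquivRight h)]
  exact Set.ncard_pair hab

theorem c1_ex_two (k : ℕ) (B : PowerSeries ℤ) : ex k (2 * B) = 2 * ex k B := by
  rw [two_mul, two_mul, E8X.ex_add]

theorem c1_coeff_two (n : ℕ) (B : PowerSeries ℤ) : coeff n (2 * B) = 2 * coeff n B := by
  rw [two_mul, two_mul, map_add]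

/-- the parametrization of `ℤ × ℤ` by the parity of the second coordinate -/
def c1_e : (ℤ × ℤ) ⊕ (ℤ × ℤ) ≃ ℤ × ℤ where
  toFun s := Sum.elim (fun p => (p.1 - p.2, 2 * p.2)) (fun p => (p.1 - p.2, 2 * p.2 + 1)) s
  invFun v := if v.2 % 2 = 0 then Sum.inl (v.1 + v.2 / 2, v.2 / 2) else Sum.inr (v.1 + v.2 / 2, v.2 / 2)
  left_inv s := by
    rcases s with ⟨m, n⟩ | ⟨m, n⟩
    · have h1 : (2 * n) % 2 = 0 := by omega
      have h2 : (2 * n) / 2 = n := by omega
      simp only [Sum.elim_inl]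
      rw [if_pos h1, h2]
      simp
    · have h1 : ¬ (2 * n + 1) % 2 = 0 := by omega
      have h2 : (2 * n + 1) / 2 = n := by omega
      simp only [Sum.elim_inr]
      rw [if_neg h1, h2]
      simp
  right_inv v := by
    obtain ⟨x, y⟩ := v
    by_cases h : y % 2 = 0
    · simp only [h, if_true, Sum.elim_inl]
      ext
      · simp
      · simp only
        omega
    · simp only [h, if_false, Sum.elim_inr]
      ext
      · simp
      · simp only
        omega

theorem phs_gf : phs = gf (fun n : ℤ => n ^ 2) := by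
  ext n
  rw [phs, gf, coeff_mk, coeff_mk]
  split_ifs with h0 hk
  · subst h0
    rw [c1_card_one 0]
    · simp
    · intro i
      simp
  · obtain ⟨k, hk⟩ := hk
    have hk0 : (k : ℤ) ≠ 0 := by
      rintro h
      have : k = 0 := by exact_mod_cast h
      subst this
      exact h0 (by simpa using hk.symm)
    rw [c1_card_two (k : ℤ) (-(k : ℤ)) (by omega)]
    · simp
    · intro i
      rw [← hk]
      push_cast
      rw [show (k : ℤ) * k = (k : ℤ) ^ 2 by ring]
      exact sq_eq_sq_iff_eq_or_eq_neg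
  · rw [c1_card_zero]
    · simp
    · intro i hi
      apply hk
      refine ⟨i.natAbs, ?_⟩
      have h2 : ((i.natAbs * i.natAbs : ℕ) : ℤ) = (n : ℤ) := by
        rw [Int.natAbs_mul_self, ← hi]
        ring
      exact_mod_cast h2

theorem psi_gf : 2 * ex 2 psi = gf (fun n : ℤ => n ^ 2 + n) := by
  ext n
  rw [c1_coeff_two, ex, coeff_mk, psi, gf, coeff_mk]
  by_cases hn : 2 ∣ n
  · rw [if_pos hn, coeff_mk]
    obtain ⟨l, hl⟩ := hn
    have hl2 : n / 2 = l := by omega
    rw [hl2]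
    split_ifs with hk
    · obtain ⟨k, hk⟩ := hk
      rw [c1_card_two (k : ℤ) (-(k : ℤ) - 1) (by omega)]
      · simp
      · intro i
        have h3 : ((n : ℕ) : ℤ) = (k : ℤ) * (k + 1) := by
          rw [hl, ← hk]
          push_cast
          ring
        rw [h3]
        constructor
        · intro h
          have h4 : (i - k) * (i - (-(k : ℤ) - 1)) = 0 := by
            linear_combination h
          rcases mul_eq_zero.mp h4 with h5 | h5
          · left
            linarith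
          · right
            linarith
        · rintro (h | h)
          · subst h
            ring
          · subst h
            ring
    · rw [c1_card_zero]
      · simp
      · intro i hi
        apply hk
        rcases le_or_gt 0 i with h0 | h0
        · refine ⟨i.toNat, ?_⟩
          have h4 : ((i.toNat : ℕ) : ℤ) = i := Int.toNat_of_nonneg h0
          have h5 : (((i.toNat * (i.toNat + 1) : ℕ)) : ℤ) = ((2 * l : ℕ) : ℤ) := by
            rw [Nat.cast_mul, Nat.cast_add, h4, ← hl, ← hi]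
            push_cast
            ring
          exact_mod_cast h5
        · refine ⟨(-i - 1).toNat, ?_⟩
          have h4 : (((-i - 1).toNat : ℕ) : ℤ) = -i - 1 := Int.toNat_of_nonneg (by omega)
          have h5 : ((((-i - 1).toNat * ((-i - 1).toNat + 1) : ℕ)) : ℤ) = ((2 * l : ℕ) : ℤ) := by
            rw [Nat.cast_mul, Nat.cast_add, h4, ← hl, ← hi]
            push_cast
            ring
          exact_mod_cast h5
  · rw [if_neg hn, coeff_mk, c1_card_zero]
    · simp
    · intro i hi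
      apply hn
      have h5 : (2 : ℤ) ∣ (n : ℤ) := by
        rw [← hi, show i ^ 2 + i = i * (i + 1) by ring]
        exact (Int.even_mul_succ_self i).two_dvd
      exact_mod_cast h5

/-- `(x, y)` with `y = 2 n`, `x = m - n`: `x² + xy + y² = m² + 3 n²`; with `y = 2 n + 1`, `x = m - n`:
`x² + xy + y² = 1 + (m² + m) + 3 (n² + n)`. So `ℤ × ℤ ≃ (ℤ × ℤ) ⊕ (ℤ × ℤ)`. -/
theorem aS_theta : aS = phs * ex 3 phs + 4 * (X * (ex 2 psi * ex 6 psi)) := by
  have hsq := adm_sq
  have htri := adm_tri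
  have hsq3 : Adm (fun n : ℤ => ((3 : ℕ) : ℤ) * n ^ 2) := adm_sq.smul (by norm_num)
  have htri3 : Adm (fun n : ℤ => ((3 : ℕ) : ℤ) * (n ^ 2 + n)) := adm_tri.smul (by norm_num)
  have hp1 := hsq.prod hsq3
  have hp2 := htri.prod htri3
  have hp2' : Adm (fun p : ℤ × ℤ => 1 + ((p.1 ^ 2 + p.1) + ((3 : ℕ) : ℤ) * (p.2 ^ 2 + p.2))) := by
    refine ⟨fun p => ?_, fun n => ?_⟩
    · have h : (0 : ℤ) ≤ (p.1 ^ 2 + p.1) + ((3 : ℕ) : ℤ) * (p.2 ^ 2 + p.2) := hp2.nonneg p
      exact add_nonneg zero_le_one h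
    · have h1 : Finite {p : ℤ × ℤ // (p.1 ^ 2 + p.1) + ((3 : ℕ) : ℤ) * (p.2 ^ 2 + p.2) = n - 1} := hp2.fin (n - 1)
      have h2 : ∀ p : ℤ × ℤ, (p.1 ^ 2 + p.1) + ((3 : ℕ) : ℤ) * (p.2 ^ 2 + p.2) = n - 1 ↔
          1 + ((p.1 ^ 2 + p.1) + ((3 : ℕ) : ℤ) * (p.2 ^ 2 + p.2)) = n := by
        intro p
        constructor
        · intro h
          linarith
        · intro h
          linarith
      exact Finite.of_equiv _ (Equiv.subtypeEquivRight h2)
  have he : gf (Sum.elim (fun p : ℤ × ℤ => p.1 ^ 2 + ((3 : ℕ) : ℤ) * p.2 ^ 2)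
      (fun p : ℤ × ℤ => 1 + ((p.1 ^ 2 + p.1) + ((3 : ℕ) : ℤ) * (p.2 ^ 2 + p.2)))) = gf Nm := by
    refine gf_equiv c1_e (fun s => ?_)
    rcases s with ⟨m, n⟩ | ⟨m, n⟩
    · simp only [c1_e, Equiv.coe_fn_mk, Sum.elim_inl, Nm]
      push_cast
      ring
    · simp only [c1_e, Equiv.coe_fn_mk, Sum.elim_inr, Nm]
      push_cast
      ring
  rw [aS, ← he, gf_sum hp1 hp2', gf_add_one hp2]
  rw [gf_prod hsq hsq3, gf_prod htri htri3, gf_smul _ (by norm_num : 0 < 3), gf_smul _ (by norm_num : 0 < 3),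
    ← phs_gf, ← psi_gf, c1_ex_two, E8X.ex_ex (by norm_num) (by norm_num)]
  ring

end E8T
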