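import Pool.Agent.E8T.C1

/-!
# [E8T-C2] the function `a(z)`
-/

set_option autoImplicit false

open scoped Real
open PowerSeries
open N19 (ex psi phs t2 t3 t4)
open NC11 (Ev qq)

namespace E8T

/-- from `aS_theta`, `E8X.phs_ev`, `E8X.psi_ev`, `E8X.t2_Psi`, `N19.ev_ex`, `NC11.m7_Ev_X`:
`t2 (2 z) t2 (6 z) = 4 exp(2 π i z) Psi (2 z) Psi (6 z)` -/
theorem aS_ev : Ev aS af := by
  have h := (E8X.phs_ev.mul (N19.ev_ex E8X.phs_ev (k := 3) (by norm_num))).add ((Ev.const 4).mul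
    (NC11.m7_Ev_X.mul ((N19.ev_ex E8X.psi_ev (k := 2) (by norm_num)).mul (N19.ev_ex E8X.psi_ev (k := 6) (by norm_num)))))
  have h' : (C 4 : PowerSeries ℤ) = 4 := rfl
  rw [h', ← aS_theta] at h
  refine NC11.Ev.congr h ?_
  intro z _
  unfold af
  rw [E8X.t2_Psi, E8X.t2_Psi]
  have e1 : (2 : ℂ) * (((3 : ℕ) : ℂ) * z) = 6 * z := by push_cast; ring
  have e2 : (((2 : ℕ) : ℂ) * z) = 2 * z := by push_cast; ring
  have e3 : (((6 : ℕ) : ℂ) * z) = 6 * z := by push_cast; ring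
  have e4 : Complex.exp (π * Complex.I * (2 * z) / 4) * Complex.exp (π * Complex.I * (6 * z) / 4) = qq z := by
    rw [qq, ← Complex.exp_add]
    congr 1
    ring
  simp only [e1, e2, e3]
  rw [← e4]
  push_cast
  ring

theorem af_T {z : ℂ} (hz : 0 < z.im) : af (z + 1) = af z := E8X.m5_T aS_ev hz

end E8T
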