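import Pool.Agent.E8T.Defs

/-!
# [E8T-C3] the transformation `z ↦ -1/z`
-/

set_option autoImplicit false

open scoped Real
open N19 (t2 t3 t4)

namespace E8T

theorem c3_sqrt {x : ℂ} (hx : x ≠ 0) : ((3 : ℝ) * x : ℂ) ^ (1 / 2 : ℂ) * x ^ (1 / 2 : ℂ) = (√3 : ℝ) * x := by
  have h3x : ((3 : ℝ) * x : ℂ) ≠ 0 := mul_ne_zero (by norm_num) hx
  have h1 : ((3 : ℝ) * x : ℂ) ^ (1 / 2 : ℂ) = (√3 : ℝ) * x ^ (1 / 2 : ℂ) := by
    rw [Complex.cpow_def_of_ne_zero h3x, Complex.cpow_def_of_ne_zero hx,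
      Complex.log_ofReal_mul (by norm_num) hx, add_mul, Complex.exp_add]
    congr 1
    rw [Real.sqrt_eq_rpow, Real.rpow_def_of_pos (by norm_num)]
    push_cast
    rfl
  rw [h1, mul_assoc, ← Complex.cpow_add _ _ hx]
  norm_num

/-- `N19.t3_S`, `N19.t2_S` at `3 z / 2` and `z / 2` (`-1/(3z/2) = 2 (-1/(3 z))`, `-1/(z/2) = 6 (-1/(3z))`);
`(-i 3z/2)^(1/2) (-i z/2)^(1/2) = √3 (-i z/2)` (a positive real factor can be taken out of `cpow`,
`Complex.mul_cpow_ofReal_nonneg`), and `t3 w = t3 (4 w) + t2 (4 w)`, `t4 w = t3 (4 w) - t2 (4 w)`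
(`E8X.t3_four`, `E8X.t4_four`) at `w = z / 2`, `3 z / 2` give `t3 (z/2) t3 (3z/2) + t4 (z/2) t4 (3z/2) = 2 af z`. -/
theorem af_fricke {z : ℂ} (hz : 0 < z.im) : af (-1 / (3 * z)) = -Complex.I * (√3 : ℝ) * z * af z := by
  have h0 : z ≠ 0 := by
    rintro rfl
    simp at hz
  have hz1 : 0 < (3 * z / 2).im := by
    have e : (3 * z / 2 : ℂ) = ((3 / 2 : ℝ) : ℂ) * z := by push_cast; ring
    rw [e, Complex.im_ofReal_mul]
    positivity
  have hz2 : 0 < (z / 2).im := by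
    have e : (z / 2 : ℂ) = ((1 / 2 : ℝ) : ℂ) * z := by push_cast; ring
    rw [e, Complex.im_ofReal_mul]
    positivity
  have e1 : 2 * (-1 / (3 * z)) = -1 / (3 * z / 2) := by field_simp
  have e2 : 6 * (-1 / (3 * z)) = -1 / (z / 2) := by field_simp; norm_num
  unfold af
  rw [e1, e2, N19.t3_S hz1, N19.t3_S hz2, N19.t2_S hz1, N19.t2_S hz2]
  have hx : -Complex.I * (z / 2) ≠ 0 := mul_ne_zero (neg_ne_zero.2 Complex.I_ne_zero) (div_ne_zero h0 two_ne_zero)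
  have h1 := c3_sqrt hx
  have e3 : -Complex.I * (3 * z / 2) = ((3 : ℝ) * (-Complex.I * (z / 2)) : ℂ) := by push_cast; ring
  rw [e3]
  have f1 : t3 (3 * z / 2) = t3 (6 * z) + t2 (6 * z) := by
    rw [E8X.t3_four (3 * z / 2)]
    have e : 4 * (3 * z / 2) = 6 * z := by ring
    rw [e]
  have f2 : t3 (z / 2) = t3 (2 * z) + t2 (2 * z) := by
    rw [E8X.t3_four (z / 2)]
    have e : 4 * (z / 2) = 2 * z := by ring
    rw [e]
  have f3 : t4 (3 * z / 2) = t3 (6 * z) - t2 (6 * z) := by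
    rw [E8X.t4_four hz1]
    have e : 4 * (3 * z / 2) = 6 * z := by ring
    rw [e]
  have f4 : t4 (z / 2) = t3 (2 * z) - t2 (2 * z) := by
    rw [E8X.t4_four hz2]
    have e : 4 * (z / 2) = 2 * z := by ring
    rw [e]
  rw [f1, f2, f3, f4]
  linear_combination (2 * (t3 (2 * z) * t3 (6 * z) + t2 (2 * z) * t2 (6 * z))) * h1

theorem af_S {z : ℂ} (hz : 0 < z.im) :
    af (-1 / z) = -Complex.I * z / (√3 : ℝ) * (af z + 2 * cf z) := by
  have hz3 : 0 < (z / 3).im := by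
    have e : (z / 3 : ℂ) = ((1 / 3 : ℝ) : ℂ) * z := by push_cast; ring
    rw [e, Complex.im_ofReal_mul]
    positivity
  have h := af_fricke hz3
  have e : 3 * (z / 3) = z := by ring
  have hs : ((√3 : ℝ) : ℂ) ^ 2 = 3 := by
    rw [← Complex.ofReal_pow, Real.sq_sqrt (by norm_num)]
    norm_num
  have hs0 : ((√3 : ℝ) : ℂ) ≠ 0 := by
    intro h0
    rw [h0] at hs
    norm_num at hs
  rw [e] at h
  rw [h, cf]
  field_simp
  linear_combination (-(z * af (z / 3))) * hs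

theorem cf_S {z : ℂ} (hz : 0 < z.im) :
    cf (-1 / z) = -Complex.I * z / (√3 : ℝ) * (af z - cf z) := by
  have h1 := af_fricke hz
  have h2 := af_S hz
  have e : -1 / z / 3 = -1 / (3 * z) := by rw [div_div, mul_comm]
  have hs : ((√3 : ℝ) : ℂ) ^ 2 = 3 := by
    rw [← Complex.ofReal_pow, Real.sq_sqrt (by norm_num)]
    norm_num
  have hs0 : ((√3 : ℝ) : ℂ) ≠ 0 := by
    intro h0
    rw [h0] at hs
    norm_num at hs
  have h3 : cf (-1 / z) = (af (-1 / z / 3) - af (-1 / z)) / 2 := rfl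
  rw [h3, e, h1, h2]
  field_simp
  linear_combination (-(z * af z)) * hs

/-- `(a + 2c)³ - (a - c)³ = 9 c (a² + a c + c²)` -/
theorem g12_S {z : ℂ} (hz : 0 < z.im) : g12 (-1 / z) = z ^ 12 * g12 z := by
  have hs : ((√3 : ℝ) : ℂ) ^ 2 = 3 := by
    rw [← Complex.ofReal_pow, Real.sq_sqrt (by norm_num)]
    norm_num
  have hs0 : ((√3 : ℝ) : ℂ) ≠ 0 := by
    intro h0
    rw [h0] at hs
    norm_num at hs
  obtain ⟨k, hk⟩ : ∃ k : ℂ, k = -Complex.I * z / (√3 : ℝ) := ⟨_, rfl⟩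
  have hk2 : k ^ 2 = -z ^ 2 / 3 := by
    rw [hk, div_pow, hs, mul_pow, neg_pow, Complex.I_sq]
    ring
  have hk12 : k ^ 12 = z ^ 12 / 729 := by
    have e : k ^ 12 = (k ^ 2) ^ 6 := by ring
    rw [e, hk2]
    ring
  unfold g12
  rw [af_S hz, cf_S hz, ← hk]
  have e : (k * (af z - cf z)) ^ 3 * ((k * (af z + 2 * cf z)) ^ 3 - (k * (af z - cf z)) ^ 3) ^ 3 =
      k ^ 12 * (729 * (cf z ^ 3 * (af z ^ 3 - cf z ^ 3) ^ 3)) := by ring
  rw [e, hk12]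
  ring

/-- `(a + 2c)⁴ + 8 (a + 2c) (a - c)³ = 9 (a⁴ + 8 a c³)` -/
theorem g4_S {z : ℂ} (hz : 0 < z.im) : g4 (-1 / z) = z ^ 4 * g4 z := by
  have hs : ((√3 : ℝ) : ℂ) ^ 2 = 3 := by
    rw [← Complex.ofReal_pow, Real.sq_sqrt (by norm_num)]
    norm_num
  have hs0 : ((√3 : ℝ) : ℂ) ≠ 0 := by
    intro h0
    rw [h0] at hs
    norm_num at hs
  obtain ⟨k, hk⟩ : ∃ k : ℂ, k = -Complex.I * z / (√3 : ℝ) := ⟨_, rfl⟩
  have hk2 : k ^ 2 = -z ^ 2 / 3 := by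
    rw [hk, div_pow, hs, mul_pow, neg_pow, Complex.I_sq]
    ring
  have hk4 : k ^ 4 = z ^ 4 / 9 := by
    have e : k ^ 4 = (k ^ 2) ^ 2 := by ring
    rw [e, hk2]
    ring
  unfold g4
  rw [af_S hz, cf_S hz, ← hk]
  have e : (k * (af z + 2 * cf z)) ^ 4 + 8 * (k * (af z + 2 * cf z)) * (k * (af z - cf z)) ^ 3 =
      k ^ 4 * (9 * (af z ^ 4 + 8 * af z * cf z ^ 3)) := by ring
  rw [e, hk4]
  ring

end E8T
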