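import Pool.Agent.E8T.B5
import Pool.Agent.E8T.C2
import Pool.Agent.E8T.C3

/-!
# [E8T-C4] `Δ` and `E₄` in terms of `A` and `C`
-/

set_option autoImplicit false

open scoped Real

open PowerSeries

open N19 (ex psi phs)

open NC11 (Ev qq)

namespace E8T

/-- as `E8X.J8_ev` -/
theorem ev_ex_inv {B : PowerSeries ℤ} {g : ℂ → ℂ} {k : ℕ} (hk : 0 < k) (h : Ev (ex k B) g) :
    Ev B (fun z => g (z / k)) := by
  intro z hz
  have hk' : (k : ℂ) ≠ 0 := Nat.cast_ne_zero.2 hk.ne'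
  have hz8 : 0 < (z / (k : ℂ)).im := by
    have h1 : (z / (k : ℂ)).im = z.im / k := by
      rw [show z / (k : ℂ) = z / ((k : ℝ) : ℂ) by push_cast; rfl, Complex.div_ofReal_im]
    rw [h1]
    exact div_pos hz (Nat.cast_pos.2 hk)
  have h := h (z / k) hz8
  have hinj : Function.Injective (fun n : ℕ => k * n) := mul_right_injective₀ hk.ne'
  rw [← hinj.hasSum_iff] at h
  · convert! h using 1
    funext n
    simp only [Function.comp_apply]
    rw [ex, coeff_mk, if_pos (Dvd.intro n rfl), Nat.mul_div_cancel_left n hk]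
    congr 1
    rw [qq, qq, ← Complex.exp_nat_mul, ← Complex.exp_nat_mul]
    congr 1
    push_cast
    field_simp
  · intro m hm
    rw [ex, coeff_mk, if_neg]
    · simp
    · rintro ⟨c, rfl⟩
      exact hm ⟨c, rfl⟩

/-- from `aS_eq`, `As_eq`, `aS_ev`, `N19.ev_ex` (divide by 2) -/
theorem Ps_ev : Ev Ps (fun z => (af z - af (3 * z)) / 2) := by
  have h1 : Ev As (fun z => af (3 * z)) := by
    rw [As_eq]
    exact N19.ev_ex aS_ev (k := 3) (by norm_num)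
  have h2 : Ev (aS - As) (fun z => af z - af (3 * z)) := aS_ev.sub h1
  have h3 : aS - As = 2 * Ps := by rw [aS_eq]; ring
  rw [h3] at h2
  intro z hz
  have h4 := (h2 z hz).div_const 2
  convert! h4 using 1
  funext n
  rw [show (2 : PowerSeries ℤ) = C 2 from rfl, coeff_C_mul]
  push_cast
  ring

/-- `P_cubic`, `ev_ex_inv` -/
theorem c3_ev : Ev c3 (fun z => cf z ^ 3) := by
  have h1 := Ps_ev.pow 3
  rw [P_cubic] at h1
  refine (ev_ex_inv (by norm_num) h1).congr fun z hz => ?_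
  show ((af (z / (3 : ℕ)) - af (3 * (z / (3 : ℕ)))) / 2) ^ 3 = cf z ^ 3
  rw [cf]
  push_cast
  rw [show (3 : ℂ) * (z / 3) = z by ring]

theorem c4_A0 : constantCoeff As = 1 := by
  rw [← coeff_zero_eq_constantCoeff_apply, As_zero]

theorem c4_C0 : constantCoeff Cs = 0 := by
  rw [← coeff_zero_eq_constantCoeff_apply, Cs_zero]

theorem c4_Cs : ∃ S : PowerSeries ℤ, Cs = X * S ∧ constantCoeff S = 1 := by
  obtain ⟨S, hS⟩ : (X : PowerSeries ℤ) ∣ Cs := by
    rw [PowerSeries.X_dvd_iff, c4_C0]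
  refine ⟨S, hS, ?_⟩
  have h := Cs_one
  rw [hS, show (1 : ℕ) = 0 + 1 from rfl, coeff_succ_X_mul, coeff_zero_eq_constantCoeff_apply] at h
  exact h

theorem c4_prod : c3 * (aS ^ 3 - c3) ^ 3 =
    27 * Cs * (As ^ 2 + 3 * As * Cs + 9 * Cs ^ 2) * (As - 3 * Cs) ^ 9 := by
  rw [a3_c3, c3_eq]
  ring

theorem c4_k3 : constantCoeff (3 : PowerSeries ℤ) = 3 := rfl

theorem c4_k9 : constantCoeff (9 : PowerSeries ℤ) = 9 := rfl

theorem c4_k27 : constantCoeff (27 : PowerSeries ℤ) = 27 := rfl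

theorem c4_coeff_zero : coeff 0 (c3 * (aS ^ 3 - c3) ^ 3) = 0 := by
  rw [c4_prod, coeff_zero_eq_constantCoeff_apply]
  simp only [map_mul, map_add, map_sub, map_pow, c4_A0, c4_C0]
  ring

theorem c4_one_X (B : PowerSeries ℤ) : coeff 1 (X * B) = constantCoeff B := by
  rw [show (1 : ℕ) = 0 + 1 from rfl, coeff_succ_X_mul, coeff_zero_eq_constantCoeff_apply]

theorem c4_coeff_one : coeff 1 (c3 * (aS ^ 3 - c3) ^ 3) = 27 := by
  obtain ⟨S, hS, hS1⟩ := c4_Cs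
  have e : c3 * (aS ^ 3 - c3) ^ 3 =
      X * (27 * S * (As ^ 2 + 3 * As * (X * S) + 9 * (X * S) ^ 2) * (As - 3 * (X * S)) ^ 9) := by
    rw [c4_prod, hS]
    ring
  rw [e, c4_one_X]
  simp only [map_mul, map_add, map_sub, map_pow, c4_A0, hS1, constantCoeff_X, c4_k3, c4_k9, c4_k27]
  norm_num

theorem c4_a0 : constantCoeff aS = 1 := by
  rw [aS_eq', map_add, map_mul, c4_A0, c4_C0]
  ring

theorem c4_c0 : constantCoeff c3 = 0 := by
  rw [c3_eq]
  simp only [map_mul, map_add, map_pow, c4_A0, c4_C0]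
  ring

/-- `E8X.cusp_twelve` for `c3 (a³ - c3)³` and `g12`; the coefficient of `X` is `27` by `Cs_zero`, `Cs_one`, `As_zero` -/
theorem Dl_c3 : c3 * (aS ^ 3 - c3) ^ 3 = 27 * E8X.Dl := by
  have h : Ev (c3 * (aS ^ 3 - c3) ^ 3) g12 := c3_ev.mul (((aS_ev.pow 3).sub c3_ev).pow 3)
  rw [E8X.cusp_twelve h c4_coeff_zero (fun z hz => g12_S hz), c4_coeff_one]
  rfl

/-- `E8X.cusp_zero` (weight 4) for `1 + 240 Sg 3 - (a⁴ + 8 a c3)`; model: `E8X.E4_eq` -/
theorem E4_c3 : 1 + 240 * E8X.Sg 3 = aS ^ 4 + 8 * aS * c3 := by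
  have h1 := E8X.eis_ev (k := 4) (by norm_num) ⟨2, rfl⟩ 240 1 (by norm_num) (by exact E8X.bern4)
  have h1' : (C 1 + C 240 * E8X.Sg (4 - 1) : PowerSeries ℤ) = 1 + 240 * E8X.Sg 3 := rfl
  rw [h1'] at h1
  have h2 : Ev (aS ^ 4 + 8 * aS * c3) g4 :=
    (aS_ev.pow 4).add (((Ev.const 8).mul aS_ev).mul c3_ev)
  have h3 := h1.sub h2
  have h000 : constantCoeff (E8X.Sg 3) = 0 := by
    rw [← coeff_zero_eq_constantCoeff_apply, E8X.coeff_zero_Sg]
  have h4 := E8X.cusp_zero (k := 4) (by norm_num) h3 (by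
    rw [coeff_zero_eq_constantCoeff_apply]
    simp only [map_mul, map_add, map_sub, map_pow, map_one, c4_a0, c4_c0, h000]
    ring) (by
    intro z hz
    rw [E8X.eis_S _ hz, g4_S hz]
    push_cast
    ring)
  exact sub_eq_zero.1 h4

theorem Dl_AC : E8X.Dl = Cs * (As ^ 2 + 3 * As * Cs + 9 * Cs ^ 2) * (As - 3 * Cs) ^ 9 := by
  have h := Dl_c3
  rw [a3_c3, c3_eq] at h
  have h2 : (27 : PowerSeries ℤ) * E8X.Dl = 27 * (Cs * (As ^ 2 + 3 * As * Cs + 9 * Cs ^ 2) * (As - 3 * Cs) ^ 9) := by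
    rw [← h]
    ring
  have h27 : (27 : PowerSeries ℤ) ≠ 0 := by
    intro h0
    have := congrArg (coeff 0) h0
    simp only [map_zero] at this
    rw [show (27 : PowerSeries ℤ) = C 27 from rfl, coeff_C] at this
    norm_num at this
  exact mul_left_cancel₀ h27 h2

theorem E4_AC : 1 + 240 * E8X.Sg 3 =
    (As + 6 * Cs) ^ 4 + 216 * (As + 6 * Cs) * Cs * (As ^ 2 + 3 * As * Cs + 9 * Cs ^ 2) := by
  rw [E4_c3, aS_eq', c3_eq]
  ring

end E8T
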