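import Pool.Agent.E8T.C4

/-!
# [E8T-D1] the residue classes modulo 3
-/

set_option autoImplicit false

open PowerSeries
open N19 (ex)

namespace E8T

theorem d1_As : E8X.F3Cl 3 0 As := by
  rw [As_eq]
  exact E8X.f3_ex (M := 3) (k := 3) (dvd_refl 3) aS

theorem d1_Cs : E8X.F3Cl 3 1 Cs := by
  intro n hn
  rw [Cs, gf, coeff_mk]
  have h : IsEmpty {i : ℤ × ℤ // Nc i = (n : ℤ)} := by
    refine ⟨fun i => hn ?_⟩
    have h1 := i.2
    simp only [Nc] at h1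
    have h2 : (n : ℤ) = 1 + 3 * ((2 * i.1.1 + i.1.2) + 3 * Nm i.1) := by
      refine h1.symm.trans ?_
      ring
    omega
  rw [Nat.card_of_isEmpty]
  rfl

/-- the exponents of `A^a C^b` are `b` modulo `3` (`E8X.F3Cl`, `E8X.f3_ex`, `As_eq`; for `Cs`: `Nc v % 3 = 1`) -/
theorem coeff_AC {a b n : ℕ} (h : n % 3 ≠ b % 3) : coeff n (As ^ a * Cs ^ b) = 0 := by
  have h1 := (d1_As.pow a).mul (d1_Cs.pow b)
  apply h1
  rw [Nat.zero_mul, Nat.zero_add, Nat.one_mul]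
  exact h

theorem d1_Dl : E8X.Dl = (1 : ℤ) • (As ^ 11 * Cs ^ 1) + (-24 : ℤ) • (As ^ 10 * Cs ^ 2) + (252 : ℤ) • (As ^ 9 * Cs ^ 3) + (-1539 : ℤ) • (As ^ 8 * Cs ^ 4) + (6318 : ℤ) • (As ^ 7 * Cs ^ 5) + (-20412 : ℤ) • (As ^ 6 * Cs ^ 6) + (61236 : ℤ) • (As ^ 5 * Cs ^ 7) + (-170586 : ℤ) • (As ^ 4 * Cs ^ 8) + (373977 : ℤ) • (As ^ 3 * Cs ^ 9) + (-551124 : ℤ) • (As ^ 2 * Cs ^ 10) + (472392 : ℤ) • (As ^ 1 * Cs ^ 11) + (-177147 : ℤ) • (As ^ 0 * Cs ^ 12) := by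
  rw [Dl_AC]
  simp only [zsmul_eq_mul]
  push_cast
  ring

theorem d1_S : 691 * (1 + 240 * E8X.Sg 3) ^ 3 - 432000 * E8X.Dl = (691 : ℤ) • (As ^ 12 * Cs ^ 0) + (65520 : ℤ) • (As ^ 11 * Cs ^ 1) + (134250480 : ℤ) • (As ^ 10 * Cs ^ 2) + (11606687208 : ℤ) • (As ^ 9 * Cs ^ 3) + (274940658720 : ℤ) • (As ^ 8 * Cs ^ 4) + (3190895285760 : ℤ) • (As ^ 7 * Cs ^ 5) + (23120621218368 : ℤ) • (As ^ 6 * Cs ^ 6) + (115257399828480 : ℤ) • (As ^ 5 * Cs ^ 7) + (412881113998080 : ℤ) • (As ^ 4 * Cs ^ 8) + (1068005498126976 : ℤ) • (As ^ 3 * Cs ^ 9) + (1956895121825280 : ℤ) • (As ^ 2 * Cs ^ 10) + (2331238647628800 : ℤ) • (As ^ 1 * Cs ^ 11) + (1504233121680000 : ℤ) • (As ^ 0 * Cs ^ 12) := by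
  rw [Dl_AC, E4_AC]
  simp only [zsmul_eq_mul]
  push_cast
  ring

/-- expand `Dl_AC` -/
theorem tau_two_mod {n : ℕ} (hn : n % 3 = 2) :
    E8X.tau n = -24 * tj 2 n + 6318 * tj 5 n - 170586 * tj 8 n + 472392 * tj 11 n := by
  have hz : ∀ j : ℕ, j % 3 ≠ 2 → coeff n (As ^ (12 - j) * Cs ^ j) = 0 := fun j hj =>
    coeff_AC (by rw [hn]; exact fun h => hj h.symm)
  have h1 := hz 1 (by norm_num)
  have h3 := hz 3 (by norm_num)
  have h4 := hz 4 (by norm_num)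
  have h6 := hz 6 (by norm_num)
  have h7 := hz 7 (by norm_num)
  have h9 := hz 9 (by norm_num)
  have h10 := hz 10 (by norm_num)
  have h12 := hz 12 (by norm_num)
  norm_num at h1 h3 h4 h6 h7 h9 h10 h12
  rw [E8X.tau, d1_Dl]
  simp only [map_add, map_zsmul, tj]
  norm_num [h1, h3, h4, h6, h7, h9, h10, h12]
  ring

/-- `65520 Sg 11 = 691 (E4³ - 1) - 432000 Δ` (`E8X.S11_eq`, `E4_AC`, `Dl_AC`), expand, take the coefficient of `X^n`
(the constants `691` do not matter, as `n ≠ 0`) -/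
theorem sigma_two_mod {n : ℕ} (hn : n % 3 = 2) :
    (ArithmeticFunction.sigma 11 n : ℤ) =
      2049 * tj 2 n + 48701088 * tj 5 n + 6301604304 * tj 8 n + 35580565440 * tj 11 n := by
  have hz : ∀ j : ℕ, j % 3 ≠ 2 → coeff n (As ^ (12 - j) * Cs ^ j) = 0 := fun j hj =>
    coeff_AC (by rw [hn]; exact fun h => hj h.symm)
  have h0 := hz 0 (by norm_num)
  have h1 := hz 1 (by norm_num)
  have h3 := hz 3 (by norm_num)
  have h4 := hz 4 (by norm_num)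
  have h6 := hz 6 (by norm_num)
  have h7 := hz 7 (by norm_num)
  have h9 := hz 9 (by norm_num)
  have h10 := hz 10 (by norm_num)
  have h12 := hz 12 (by norm_num)
  norm_num at h0 h1 h3 h4 h6 h7 h9 h10 h12
  have hS := congrArg (coeff n) (E8X.S11_eq.trans d1_S)
  have hn0 : n ≠ 0 := by
    rintro rfl
    norm_num at hn
  have hL : coeff n (691 + 65520 * E8X.Sg 11 : PowerSeries ℤ) = 65520 * (ArithmeticFunction.sigma 11 n : ℤ) := by
    rw [map_add, show (691 : PowerSeries ℤ) = C 691 from rfl, show (65520 : PowerSeries ℤ) = C 65520 from rfl,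
      coeff_C, if_neg hn0, coeff_C_mul, E8X.Sg, coeff_mk, zero_add]
  rw [hL] at hS
  simp only [map_add, map_zsmul] at hS
  norm_num [h0, h1, h3, h4, h6, h7, h9, h10, h12] at hS
  simp only [tj]
  norm_num
  linarith

/-- the main identity -/
theorem main_id {n : ℕ} (hn : n % 3 = 2) : 683 * E8X.tau n + 8 * (ArithmeticFunction.sigma 11 n : ℤ) =
    393923898 * tj 5 n + 50296324194 * tj 8 n + 284967167256 * tj 11 n := by
  have h1 := tau_two_mod hn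
  have h2 := sigma_two_mod hn
  rw [h1, h2]
  ring

end E8T
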