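import Pool.Agent.E8T.D1
import Pool.Agent.E8T.D2

/-!
# [E8T-D3] primes with `τ(p) = 0`
-/

set_option autoImplicit false

open PowerSeries

namespace E8T

/-- the arithmetic part of `prime_cond3` -/
theorem d3_arith {p t5 t8 t11 : ℤ} (hp : p % 3 = 2)
    (h : 8 * (1 + p ^ 11) = 393923898 * t5 + 50296324194 * t8 + 284967167256 * t11) :
    ∃ z : ℤ, p + 1 = 729 * z ∧ (27 : ℤ) ∣ t5 - 8 * z := by
  set u : ℤ := p + 1 with hu
  set S : ℤ := u ^ 10 - 11 * u ^ 9 + 55 * u ^ 8 - 165 * u ^ 7 + 330 * u ^ 6 - 462 * u ^ 5 + 462 * u ^ 4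
    - 330 * u ^ 3 + 165 * u ^ 2 - 55 * u + 11 with hS
  have hpu : p = u - 1 := by rw [hu]; ring
  have h1 : 1 + p ^ 11 = u * S := by rw [hpu, hS]; ring
  have h3u : (3 : ℤ) ∣ u := by rw [hu]; omega
  obtain ⟨y, hy⟩ := h3u
  have hS3 : ¬ (3 : ℤ) ∣ S := by
    intro hd
    have : S = 3 * (y * (u ^ 9 - 11 * u ^ 8 + 55 * u ^ 7 - 165 * u ^ 6 + 330 * u ^ 5 - 462 * u ^ 4 + 462 * u ^ 3
      - 330 * u ^ 2 + 165 * u - 55)) + 11 := by
      rw [hS]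
      have : u * (u ^ 9 - 11 * u ^ 8 + 55 * u ^ 7 - 165 * u ^ 6 + 330 * u ^ 5 - 462 * u ^ 4 + 462 * u ^ 3
      - 330 * u ^ 2 + 165 * u - 55) = 3 * (y * (u ^ 9 - 11 * u ^ 8 + 55 * u ^ 7 - 165 * u ^ 6 + 330 * u ^ 5 -
      462 * u ^ 4 + 462 * u ^ 3 - 330 * u ^ 2 + 165 * u - 55)) := by
        rw [← mul_assoc, ← hy]
      rw [← this]
      ring
    rw [this] at hd
    omega
  have hcS : IsCoprime ((3 : ℤ) ^ 6) (8 * S) := by
    apply IsCoprime.pow_left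
    have h38 : IsCoprime (3 : ℤ) 8 := by norm_num
    exact IsCoprime.mul_right h38 ((Int.prime_three.coprime_iff_not_dvd).2 hS3)
  have hd : (3 : ℤ) ^ 6 ∣ 8 * S * u := by
    refine ⟨540362 * t5 + 27 * 2555318 * t8 + 729 * 536216 * t11, ?_⟩
    have : 8 * S * u = 8 * (1 + p ^ 11) := by rw [h1]; ring
    rw [this, h]
    ring
  obtain ⟨z, hz⟩ := hcS.dvd_of_dvd_mul_left hd
  refine ⟨z, by rw [hz]; norm_num, ?_⟩
  have hz' : u = 729 * z := by rw [hz]; norm_num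
  -- 8 z S = 540362 t5 + 27 * ...
  have hmain : 8 * z * S = 540362 * t5 + 27 * 2555318 * t8 + 729 * 536216 * t11 := by
    have h2 : 729 * (8 * z * S) = 729 * (540362 * t5 + 27 * 2555318 * t8 + 729 * 536216 * t11) := by
      have : 729 * (8 * z * S) = 8 * (1 + p ^ 11) := by rw [h1, hz']; ring
      rw [this, h]
      ring
    exact mul_left_cancel₀ (by norm_num) h2
  have hS11 : ∃ w : ℤ, S = 27 * w + 11 := by
    refine ⟨27 * z * (u ^ 9 - 11 * u ^ 8 + 55 * u ^ 7 - 165 * u ^ 6 + 330 * u ^ 5 - 462 * u ^ 4 + 462 * u ^ 3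
      - 330 * u ^ 2 + 165 * u - 55), ?_⟩
    have : 27 * (27 * z * (u ^ 9 - 11 * u ^ 8 + 55 * u ^ 7 - 165 * u ^ 6 + 330 * u ^ 5 - 462 * u ^ 4 + 462 * u ^ 3
      - 330 * u ^ 2 + 165 * u - 55)) = u * (u ^ 9 - 11 * u ^ 8 + 55 * u ^ 7 - 165 * u ^ 6 + 330 * u ^ 5 -
      462 * u ^ 4 + 462 * u ^ 3 - 330 * u ^ 2 + 165 * u - 55) := by
      rw [← mul_assoc, ← mul_assoc]
      congr 1
      rw [hz']; ring
    rw [this, hS]
    ring
  obtain ⟨w, hw⟩ := hS11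
  rw [hw] at hmain
  have hf : (27 : ℤ) ∣ 11 * (t5 - 8 * z) := by
    refine ⟨8 * z * w - 20013 * t5 - 2555318 * t8 - 27 * 536216 * t11, ?_⟩
    linear_combination (-1 : ℤ) * hmain
  exact (show IsCoprime (27 : ℤ) 11 by norm_num).dvd_of_dvd_mul_left hf

/-- `p ≠ 3` since `τ(3) = 252`; `p % 3 ≠ 1` by `tau_one_mod` (`σ₁₁(p) = 1 + p^11 = 2 mod 3`); so `p % 3 = 2` and
`main_id` gives `8 (1 + p^11) = 393923898 t₅ + 50296324194 t₈ + 284967167256 t₁₁`, where the coefficients are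
`3^6 540362`, `3^9 2555318`, `3^12 536216`. So `3^6 ∣ p^11 + 1`, hence `3^6 ∣ p + 1` (put `p + 1 = 3 y` first,
`p^11 + 1 = (p + 1) (11 mod 3)`), `p + 1 = 729 z`, `p^11 + 1 = 11 · 729 z mod 3^9`, `88 z = 540362 t₅ = 11 t₅ mod 27`. -/
theorem prime_cond3 {p : ℕ} (hp : p.Prime) (h : E8X.tau p = 0) :
    p % 3 = 2 ∧ ∃ z : ℤ, (p : ℤ) + 1 = 729 * z ∧ (27 : ℤ) ∣ tj 5 p - 8 * z := by
  have hσ := E8X.g2_sigma hp 11
  have h0 : p % 3 ≠ 0 := by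
    intro h3
    have : p = 3 := by
      have h' : 3 ∣ p := Nat.dvd_of_mod_eq_zero h3
      exact ((Nat.prime_dvd_prime_iff_eq Nat.prime_three hp).1 h').symm
    subst this
    rw [E8X.tau_three] at h
    norm_num at h
  have h1 : p % 3 ≠ 1 := by
    intro h1
    have hd := tau_one_mod h1
    rw [h, hσ] at hd
    obtain ⟨k, hk⟩ : ∃ k : ℕ, p = 3 * k + 1 := ⟨p / 3, by omega⟩
    have hq : ∃ m : ℤ, (p : ℤ) ^ 11 = 3 * m + 1 := by
      have hs : ((p : ℤ) - 1) ∣ (p : ℤ) ^ 11 - 1 := by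
        simpa using sub_dvd_pow_sub_pow (p : ℤ) 1 11
      obtain ⟨c, hc⟩ := hs
      refine ⟨k * c, ?_⟩
      rw [hk] at hc ⊢
      push_cast at hc ⊢
      linear_combination hc
    obtain ⟨m, hm⟩ := hq
    rw [hm] at hd
    omega
  have h2 : p % 3 = 2 := by omega
  refine ⟨h2, ?_⟩
  have hm := main_id h2
  rw [h, hσ] at hm
  have hp3 : (p : ℤ) % 3 = 2 := by omega
  exact d3_arith (t8 := tj 8 p) (t11 := tj 11 p) hp3 (by linarith)

end E8T
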