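import Pool.Agent.E8T.A2
import Pool.Agent.E8T.D3

/-!
# [E8T-D4] the final statements
-/

set_option autoImplicit false

open PowerSeries
open Pool.Agent.MP130199 (shell IsDesign)

namespace E8T

/-- the number of `(α₁, …, α₁₂)` in `ℤ[ω]¹²` with `α₁, …, α_j = 1 mod 3`, the others divisible by `√-3`, and
`N(α₁) + ⋯ + N(α₁₂) = n` -/
noncomputable def R (j n : ℕ) : ℕ :=
  Nat.card {v : Fin 12 → ℤ × ℤ //
    ∑ i, (if i.val < j then 1 + 3 * (2 * (v i).1 + (v i).2) + 9 * ((v i).1 ^ 2 + (v i).1 * (v i).2 + (v i).2 ^ 2)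
      else 3 * ((v i).1 ^ 2 + (v i).1 * (v i).2 + (v i).2 ^ 2)) = (n : ℤ)}

theorem d4_coeff (j n : ℕ) :
    coeff n (gf (fun v : Fin 12 → ℤ × ℤ => ∑ i : Fin 12, (if i.val < j then Nc else Na) (v i))) = (R j n : ℤ) := by
  rw [gf, coeff_mk, R]
  congr 1
  refine Nat.card_congr (Equiv.subtypeEquivRight (fun v => ?_))
  have h : ∑ i : Fin 12, (if i.val < j then Nc else Na) (v i) =
      ∑ i : Fin 12, (if i.val < j then
        1 + 3 * (2 * (v i).1 + (v i).2) + 9 * ((v i).1 ^ 2 + (v i).1 * (v i).2 + (v i).2 ^ 2)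
      else 3 * ((v i).1 ^ 2 + (v i).1 * (v i).2 + (v i).2 ^ 2)) := by
    refine Finset.sum_congr rfl fun i _ => ?_
    split_ifs
    · rfl
    · rfl
  rw [h]

theorem d4_gf (j : ℕ) : gf (fun v : Fin 12 → ℤ × ℤ => ∑ i : Fin 12, (if i.val < j then Nc else Na) (v i)) =
    ∏ i : Fin 12, (if i.val < j then Cs else As) := by
  rw [gf_pi 12 (fun i => if i.val < j then Nc else Na) (fun i => by
    split_ifs
    · exact adm_Nc
    · exact adm_Na)]
  refine Finset.prod_congr rfl fun i _ => ?_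
  split_ifs
  · rfl
  · rfl

/-- from an integral divisibility to natural numbers -/
theorem d4_nat {p N m r c : ℕ} (hN : 0 < N) {z : ℤ} (h1 : (p : ℤ) + 1 = N * z)
    (h2 : (m : ℤ) ∣ (r : ℤ) - c * z) : ∃ z : ℕ, p + 1 = N * z ∧ r ≡ c * z [MOD m] := by
  have hz : 0 ≤ z := by
    by_contra hneg
    push Not at hneg
    have h3 : (N : ℤ) * z ≤ 0 := mul_nonpos_of_nonneg_of_nonpos (by positivity) hneg.le
    have h4 : (0 : ℤ) ≤ (p : ℤ) := by positivity
    linarith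
  obtain ⟨y, rfl⟩ := Int.eq_ofNat_of_zero_le hz
  refine ⟨y, by exact_mod_cast h1, ?_⟩
  apply Nat.ModEq.symm
  rw [Nat.modEq_iff_dvd]
  push_cast
  exact h2

/-- `gf_pi` with `w i = if i.val < j then Nc else Na`; for `j = 5`, `8`, `11` by `Fin.prod_univ_succ` -/
theorem tj_R (j n : ℕ) (hj : j = 5 ∨ j = 8 ∨ j = 11) : tj j n = (R j n : ℤ) := by
  rw [← d4_coeff, d4_gf, tj]
  congr 1
  rcases hj with rfl | rfl | rfl
  · simp only [Fin.prod_univ_succ]
    simp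
    ring
  · simp only [Fin.prod_univ_succ]
    simp
    ring
  · simp only [Fin.prod_univ_succ]
    simp
    ring

/-- (1) -/
theorem disc_id {n : ℕ} (hn : n % 3 = 2) :
    683 * (UpperHalfPlane.qExpansion 1 ModularForm.discriminant).coeff n +
        8 * ((ArithmeticFunction.sigma 11 n : ℕ) : ℂ) =
      393923898 * (R 5 n : ℂ) + 50296324194 * (R 8 n : ℂ) + 284967167256 * (R 11 n : ℂ) := by
  have h := main_id hn
  rw [tj_R 5 n (Or.inl rfl), tj_R 8 n (Or.inr (Or.inl rfl)), tj_R 11 n (Or.inr (Or.inr rfl))] at h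
  rw [E8X.disc_coeff]
  exact_mod_cast congrArg (fun x : ℤ => (x : ℂ)) h

/-- (2) -/
theorem design_cond3 {m : ℕ} (hm : 0 < m) (hd : IsDesign m 8) :
    ∃ p : ℕ, p.Prime ∧ Odd (m.factorization p) ∧ p % 3 = 2 ∧
      8 * (p ^ 11 + 1) = 393923898 * R 5 p + 50296324194 * R 8 p + 284967167256 * R 11 p ∧
      (∃ z : ℕ, p + 1 = 3 ^ 6 * z ∧ R 5 p ≡ 8 * z [MOD 27]) ∧
      (∃ z : ℕ, p + 1 = 2 ^ 14 * z ∧ (E8X.reps p).card ≡ 11 * z [MOD 16]) := by
  obtain ⟨p, hp, ho, h0⟩ := E8X.tau_zero_prime hm (E8X.tau_eq_zero hd)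
  obtain ⟨h3, z, hz1, hz2⟩ := prime_cond3 hp h0
  obtain ⟨y, hy1, hy2⟩ := E8X.prime_cond hp h0
  refine ⟨p, hp, ho, h3, ?_, ?_, ?_⟩
  · have h := main_id h3
    rw [tj_R 5 p (Or.inl rfl), tj_R 8 p (Or.inr (Or.inl rfl)), tj_R 11 p (Or.inr (Or.inr rfl)), h0,
      E8X.g2_sigma hp 11] at h
    have h5 : (8 : ℤ) * ((p : ℤ) ^ 11 + 1) = 393923898 * (R 5 p : ℤ) + 50296324194 * (R 8 p : ℤ) +
        284967167256 * (R 11 p : ℤ) := by
      linear_combination h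
    exact_mod_cast h5
  · rw [tj_R 5 p (Or.inl rfl)] at hz2
    exact d4_nat (N := 3 ^ 6) (m := 27) (c := 8) (z := z) (by norm_num) (by rw [hz1]; norm_num) (by exact_mod_cast hz2)
  · exact d4_nat (N := 2 ^ 14) (m := 16) (c := 11) (z := y) (by norm_num) (by rw [hy1]; norm_num) (by exact_mod_cast hy2)

end E8T
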