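import Pool.Agent.E8X.G3

/-!
# [E8T] a 3-adic formula for Ramanujan's function: definitions

Eisenstein integers are `x + y ρ`, `ρ = (1 + √-3)/2`, `ρ² = ρ - 1`, of norm `x² + xy + y²`.
-/

set_option autoImplicit false

open PowerSeries
open N19 (ex psi phs t2 t3 t4)

namespace E8T

/-- generating function of a weight function: the coefficient of `X^n` is the number of `i` with `w i = n` -/
noncomputable def gf {ι : Type} (w : ι → ℤ) : PowerSeries ℤ :=
  mk fun n => (Nat.card {i // w i = (n : ℤ)} : ℤ)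

/-- admissible weight functions: nonnegative with finite fibres -/
structure Adm {ι : Type} (w : ι → ℤ) : Prop where
  nonneg : ∀ i, 0 ≤ w i
  fin : ∀ n : ℤ, Finite {i // w i = n}

/-- the norm of `x + y ρ` -/
def Nm (v : ℤ × ℤ) : ℤ := v.1 ^ 2 + v.1 * v.2 + v.2 ^ 2

/-- the norm of `√-3 (x + y ρ)` -/
def Na (v : ℤ × ℤ) : ℤ := 3 * Nm v

/-- the norm of `1 + √-3 (x + y ρ) = (1 - x - 2 y) + (2 x + y) ρ` -/
def Np (v : ℤ × ℤ) : ℤ := 1 - 3 * v.2 + 3 * Nm v

/-- the norm of `1 + 3 (x + y ρ)` -/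
def Nc (v : ℤ × ℤ) : ℤ := 1 + 3 * (2 * v.1 + v.2) + 9 * Nm v

/-- `a(q) = ∑ q^(N α)` over all Eisenstein integers `α` -/
noncomputable def aS : PowerSeries ℤ := gf Nm

/-- `A = a(q³)`: the sum over the multiples of `√-3` -/
noncomputable def As : PowerSeries ℤ := gf Na

/-- `P = 3 C`: the sum over `α = 1 mod √-3` -/
noncomputable def Ps : PowerSeries ℤ := gf Np

/-- `C`: the sum over `α = 1 mod 3` -/
noncomputable def Cs : PowerSeries ℤ := gf Nc

/-- `c(q)³`, where `c(q) = ∑ q^(N α / 3)` over `α = 1 mod √-3` -/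
noncomputable def c3 : PowerSeries ℤ := 9 * (Ps * As ^ 2 + Ps ^ 2 * As + Ps ^ 3)

/-- triples of Eisenstein integers -/
abbrev E3 : Type := (ℤ × ℤ) × (ℤ × ℤ) × (ℤ × ℤ)

/-- the sum of a triple modulo `√-3` (`x + y ρ = x - y mod √-3`) -/
def res (v : E3) : ℤ := (v.1.1 - v.1.2) + (v.2.1.1 - v.2.1.2) + (v.2.2.1 - v.2.2.2)

/-- `a(z) = ∑ e^(2 π i N(α) z)` in terms of theta functions -/
noncomputable def af (z : ℂ) : ℂ := t3 (2 * z) * t3 (6 * z) + t2 (2 * z) * t2 (6 * z)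

/-- `c(z)` -/
noncomputable def cf (z : ℂ) : ℂ := (af (z / 3) - af z) / 2

/-- `27 Δ` -/
noncomputable def g12 (z : ℂ) : ℂ := cf z ^ 3 * (af z ^ 3 - cf z ^ 3) ^ 3

/-- `E₄` -/
noncomputable def g4 (z : ℂ) : ℂ := af z ^ 4 + 8 * af z * cf z ^ 3

/-- the coefficients of `A^(12-j) C^j` -/
noncomputable def tj (j n : ℕ) : ℤ := coeff n (As ^ (12 - j) * Cs ^ j)

end E8T
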