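import Pool.Agent.E8T.C4

/-!
# [E8T-X2] `E₆` in terms of `A` and `C`
-/

set_option autoImplicit false

open scoped Real
open PowerSeries
open N19 (ex)
open NC11 (Ev qq)

namespace E8T

/-- `E₆` -/
noncomputable def g6 (z : ℂ) : ℂ := af z ^ 6 - 20 * af z ^ 3 * cf z ^ 3 - 8 * cf z ^ 6

/-- from `af_S`, `cf_S` -/
theorem g6_S {z : ℂ} (hz : 0 < z.im) : g6 (-1 / z) = z ^ 6 * g6 z := by
  have h3 : ((√3 : ℝ) : ℂ) ^ 2 = 3 := by
    rw [← Complex.ofReal_pow, Real.sq_sqrt (by norm_num)]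
    norm_num
  have h6 : (-Complex.I * z / (√3 : ℝ)) ^ 6 = -z ^ 6 / 27 := by
    have e1 : ((√3 : ℝ) : ℂ) ^ 6 = 27 := by
      rw [show (6 : ℕ) = 2 * 3 from rfl, pow_mul, h3]
      norm_num
    have e2 : (-Complex.I) ^ 6 = -1 := by
      rw [neg_pow, show (6 : ℕ) = 4 + 2 from rfl, pow_add Complex.I, Complex.I_pow_four, Complex.I_sq]
      norm_num
    rw [div_pow, mul_pow, e1, e2]
    ring
  rw [g6, g6, af_S hz, cf_S hz]
  generalize -Complex.I * z / ((√3 : ℝ) : ℂ) = w at *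
  linear_combination ((af z + 2 * cf z) ^ 6 - 20 * (af z + 2 * cf z) ^ 3 * (af z - cf z) ^ 3
    - 8 * (af z - cf z) ^ 6) * h6

/-- `E8X.eis_ev` and `E8X.eis_S` for `k = 6` (`bernoulli 6 = 1/42`, `N = -504`, `D = 1`), `E8X.cusp_zero`; model:
`E8X.E4_eq` -/
theorem E6_c3 : 1 - 504 * E8X.Sg 5 = aS ^ 6 - 20 * aS ^ 3 * c3 - 8 * c3 ^ 2 := by
  have hb : (2 * (6 : ℕ) / bernoulli 6 : ℚ) = -(-504 : ℤ) / (1 : ℤ) := by
    rw [show bernoulli 6 = 1 / 42 by decide +kernel]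
    norm_num
  have h1 := E8X.eis_ev (k := 6) (by norm_num) ⟨3, rfl⟩ (-504) 1 (by norm_num) (by exact hb)
  have hm : (C (-504) : PowerSeries ℤ) = -504 := by
    rw [map_neg]
    rfl
  have h1' : (C 1 + C (-504) * E8X.Sg (6 - 1) : PowerSeries ℤ) = 1 - 504 * E8X.Sg 5 := by
    rw [hm]
    have : (C 1 : PowerSeries ℤ) = 1 := rfl
    rw [this]
    ring
  rw [h1'] at h1
  have h2 := ((aS_ev.pow 6).sub (((Ev.const 20).mul (aS_ev.pow 3)).mul c3_ev)).sub
    ((Ev.const 8).mul (c3_ev.pow 2))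
  have e20 : (C 20 : PowerSeries ℤ) = 20 := rfl
  have e8 : (C 8 : PowerSeries ℤ) = 8 := rfl
  rw [e20, e8] at h2
  have h3 := h1.sub h2
  have c0 : constantCoeff Cs = 0 := by
    rw [← coeff_zero_eq_constantCoeff_apply, Cs_zero]
  have a0 : constantCoeff As = 1 := by
    rw [← coeff_zero_eq_constantCoeff_apply, As_zero]
  have s0 : constantCoeff (E8X.Sg 5) = 0 := by
    rw [← coeff_zero_eq_constantCoeff_apply, E8X.coeff_zero_Sg]
  have h4 := E8X.cusp_zero (k := 6) (by norm_num) h3 (by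
    rw [coeff_zero_eq_constantCoeff_apply, aS_eq', c3_eq]
    simp [c0, a0, s0]) (by
    intro z hz
    have h5 := g6_S hz
    rw [g6, g6] at h5
    rw [E8X.eis_S _ hz]
    push_cast at h5 ⊢
    linear_combination -h5)
  exact sub_eq_zero.1 h4

end E8T
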