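import Pool.Agent.E8T.D1
import Pool.Agent.E8T.X1
import Pool.Agent.E8T.X2

/-!
# [E8T-X3] `R₅` modulo 3
-/

set_option autoImplicit false

open PowerSeries

open N19 (ex)

open NC11 (D)

namespace E8T

theorem x3_num (c : ℕ) [c.AtLeastTwo] (n : ℕ) (f : PowerSeries ℤ) :
    coeff n ((OfNat.ofNat c : PowerSeries ℤ) * f) = (OfNat.ofNat c : ℤ) * coeff n f := by
  rw [← map_ofNat (C (R := ℤ)) c, coeff_C_mul]

theorem x3_ex3 (f : PowerSeries ℤ) : ex 3 (3 * f) = 3 * ex 3 f := by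
  rw [show (3 : PowerSeries ℤ) * f = C 3 * f from rfl, E8X.ex_mul (by norm_num), E8X.ex_ofNat (by norm_num)]
  rfl

/-- expand `E4_AC` and use `coeff_AC` (model: `sigma_two_mod`) -/
theorem sigma3_two_mod {n : ℕ} (hn : n % 3 = 2) :
    (ArithmeticFunction.sigma 3 n : ℤ) = 9 * coeff n (As ^ 2 * Cs ^ 2) := by
  have h1 : 1 + C 240 * E8X.Sg 3 = As ^ 4 * Cs ^ 0 + C 240 * (As ^ 3 * Cs ^ 1) +
      C 2160 * (As ^ 2 * Cs ^ 2) + C 6696 * (As ^ 1 * Cs ^ 3) + C 12960 * (As ^ 0 * Cs ^ 4) := by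
    have e1 : (C 240 : PowerSeries ℤ) = 240 := rfl
    have e2 : (C 2160 : PowerSeries ℤ) = 2160 := rfl
    have e3 : (C 6696 : PowerSeries ℤ) = 6696 := rfl
    have e4 : (C 12960 : PowerSeries ℤ) = 12960 := rfl
    rw [e1, e2, e3, e4, E4_AC]
    ring
  have h2 := congrArg (coeff n) h1
  simp only [map_add, coeff_C_mul] at h2
  rw [coeff_AC (by omega : n % 3 ≠ 0 % 3), coeff_AC (by omega : n % 3 ≠ 1 % 3),
    coeff_AC (by omega : n % 3 ≠ 3 % 3), coeff_AC (by omega : n % 3 ≠ 4 % 3), coeff_one,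
    if_neg (by omega : n ≠ 0), E8X.Sg, coeff_mk] at h2
  linarith

/-- expand `E6_c3` (with `aS_eq'`, `c3_eq`) -/
theorem sigma5_two_mod {n : ℕ} (hn : n % 3 = 2) :
    (ArithmeticFunction.sigma 5 n : ℤ) = 33 * coeff n (As ^ 4 * Cs ^ 2) + 2268 * coeff n (As * Cs ^ 5) := by
  have h1 : 1 - C 504 * E8X.Sg 5 = As ^ 6 * Cs ^ 0 - C 504 * (As ^ 5 * Cs ^ 1) -
      C 16632 * (As ^ 4 * Cs ^ 2) - C 123012 * (As ^ 3 * Cs ^ 3) - C 517104 * (As ^ 2 * Cs ^ 4) -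
      C 1143072 * (As ^ 1 * Cs ^ 5) - C 1475496 * (As ^ 0 * Cs ^ 6) := by
    have e1 : (C 504 : PowerSeries ℤ) = 504 := rfl
    have e2 : (C 16632 : PowerSeries ℤ) = 16632 := rfl
    have e3 : (C 123012 : PowerSeries ℤ) = 123012 := rfl
    have e4 : (C 517104 : PowerSeries ℤ) = 517104 := rfl
    have e5 : (C 1143072 : PowerSeries ℤ) = 1143072 := rfl
    have e6 : (C 1475496 : PowerSeries ℤ) = 1475496 := rfl
    rw [e1, e2, e3, e4, e5, e6, E6_c3, aS_eq', c3_eq]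
    ring
  have h2 := congrArg (coeff n) h1
  simp only [map_sub, coeff_C_mul] at h2
  rw [coeff_AC (by omega : n % 3 ≠ 0 % 3), coeff_AC (by omega : n % 3 ≠ 1 % 3),
    coeff_AC (by omega : n % 3 ≠ 3 % 3), coeff_AC (by omega : n % 3 ≠ 4 % 3),
    coeff_AC (by omega : n % 3 ≠ 6 % 3), coeff_one,
    if_neg (by omega : n ≠ 0), E8X.Sg, coeff_mk, pow_one As] at h2
  linarith

/-- `a = A + 6 C`, `A = a(q³)`: so `coeff n a = coeff n (a(q³)) mod 3`; strong induction on `n` shows `3 ∣ coeff n a` for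
`n > 0`; `coeff 0 a = coeff 0 A = 1` -/
theorem As_mod : ∃ B : PowerSeries ℤ, As = 1 + 3 * B := by
  have key : ∀ n : ℕ, 0 < n → (3 : ℤ) ∣ coeff n As := by
    intro n
    induction n using Nat.strong_induction_on with
    | _ n ih =>
      intro hn
      rw [As_eq, N19.ex, coeff_mk]
      by_cases h3 : 3 ∣ n
      · rw [if_pos h3, aS_eq', map_add, show (6 : PowerSeries ℤ) = C 6 from rfl, coeff_C_mul]
        obtain ⟨m, rfl⟩ := h3
        rw [Nat.mul_div_cancel_left m (by norm_num)]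
        exact dvd_add (ih m (by omega) (by omega)) (Dvd.intro (2 * coeff m Cs) (by ring))
      · rw [if_neg h3]
        exact dvd_zero _
  refine ⟨PowerSeries.mk fun n => if n = 0 then 0 else coeff n As / 3, ?_⟩
  ext n
  rw [map_add, show (3 : PowerSeries ℤ) = C 3 from rfl, coeff_C_mul, coeff_mk, coeff_one]
  by_cases h0 : n = 0
  · subst h0
    rw [if_pos rfl, if_pos rfl, As_zero]
    norm_num
  · rw [if_neg h0, if_neg h0, zero_add, Int.mul_ediv_cancel' (key n (Nat.pos_of_ne_zero h0))]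

/-- `DA = 3 (Da)(q³)`, `Da = DA + 6 DC = 3 ((Da)(q³) + 2 DC)`, so `3 ∣ Da` and
`DA = 9 ((Da)(q³) + 2 DC)(q³) = 18 (DC)(q³) mod 27` -/
theorem DAs : ∃ M : PowerSeries ℤ, D As = 18 * ex 3 (D Cs) + 27 * M := by
  have h1 : D aS = D As + 6 * D Cs := by
    rw [aS_eq', D_add, show (6 : PowerSeries ℤ) * Cs = C 6 * Cs from rfl, D_mul, D_C, zero_mul, zero_add]
    rfl
  have h2 : D As = 3 * ex 3 (D aS) := by
    conv_lhs => rw [As_eq]
    rw [D_ex (by norm_num)]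
    rfl
  have h3 : D As = 3 * ex 3 (D As) + 18 * ex 3 (D Cs) := by
    conv_lhs => rw [h2, h1]
    rw [E8X.ex_add, show (6 : PowerSeries ℤ) * D Cs = C 6 * D Cs from rfl, E8X.ex_mul (by norm_num),
      E8X.ex_ofNat (by norm_num), show (C (6 : ℤ) : PowerSeries ℤ) = 6 from rfl]
    ring
  have h4 : D aS = 3 * (ex 3 (D aS) + 2 * D Cs) := by
    conv_lhs => rw [h1, h2]
    ring
  have h5 : D As = 9 * ex 3 (ex 3 (D aS) + 2 * D Cs) := by
    conv_lhs => rw [h2, h4]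
    rw [show (3 : PowerSeries ℤ) * (ex 3 (D aS) + 2 * D Cs) = C 3 * (ex 3 (D aS) + 2 * D Cs) from rfl,
      E8X.ex_mul (by norm_num), E8X.ex_ofNat (by norm_num), show (C (3 : ℤ) : PowerSeries ℤ) = 3 from rfl]
    ring
  refine ⟨ex 3 (ex 3 (ex 3 (D aS) + 2 * D Cs)), ?_⟩
  have h6 : ex 3 (D As) = 9 * ex 3 (ex 3 (ex 3 (D aS) + 2 * D Cs)) := by
    conv_lhs => rw [h5]
    rw [show (9 : PowerSeries ℤ) * ex 3 (ex 3 (D aS) + 2 * D Cs) = C 9 * ex 3 (ex 3 (D aS) + 2 * D Cs) from rfl,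
      E8X.ex_mul (by norm_num), E8X.ex_ofNat (by norm_num), show (C (9 : ℤ) : PowerSeries ℤ) = 9 from rfl]
  conv_lhs => rw [h3, h6]
  ring

/-- `DC = C mod 3` (the exponents of `C` are `1 mod 3`, `coeff_AC`), `C³ = (C (A² + 3 A C + 9 C²))(q³)` (`C_cubic`),
`A = 1 mod 3` -/
theorem ex3_DCs : ∃ M : PowerSeries ℤ, ex 3 (D Cs) = Cs ^ 3 + 3 * M := by
  obtain ⟨B, hB⟩ := As_mod
  have h1 : D Cs = Cs + 3 * (mk fun n => ((n / 3 : ℕ) : ℤ) * coeff n Cs) := by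
    ext n
    rw [D, coeff_mk, map_add, x3_num, coeff_mk]
    by_cases hn : n % 3 = 1
    · have h2 : (n : ℤ) = 1 + 3 * ((n / 3 : ℕ) : ℤ) := by omega
      rw [h2]
      push_cast
      ring
    · have h3 : coeff n Cs = 0 := by
        have h4 := coeff_AC (a := 0) (b := 1) (n := n) (by simpa using hn)
        rwa [pow_zero, one_mul, pow_one] at h4
      rw [h3]
      ring
  set N : PowerSeries ℤ := mk fun n => ((n / 3 : ℕ) : ℤ) * coeff n Cs with hN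
  have h2 : Cs * (As ^ 2 + 3 * As * Cs + 9 * Cs ^ 2) =
      Cs + 3 * (Cs * (2 * B + 3 * B ^ 2 + As * Cs + 3 * Cs ^ 2)) := by
    rw [hB]
    ring
  have h3 := C_cubic
  rw [h2, E8X.ex_add, x3_ex3] at h3
  refine ⟨ex 3 N - ex 3 (Cs * (2 * B + 3 * B ^ 2 + As * Cs + 3 * Cs ^ 2)), ?_⟩
  rw [h1, E8X.ex_add, x3_ex3, h3]
  ring

/-- `n σ₃(n) = 9 coeff n (D (A² C²))`, `D (A² C²) = 4 A C² DA + 2 A⁴ C² - 54 A C⁵` by `bracket`, so
`11 n σ₃(n) - 6 σ₅(n) = 396 [A C² DA] - 18954 [A C⁵] = 81·44·2 [A C² ex 3 (D C)] = 81·88 [A C⁵] = 81 [A^7 C^5] mod 243`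
(`18954 = 243·78`, `396·27 = 0 mod 243`). -/
theorem R5_mod {n : ℕ} (hn : n % 3 = 2) :
    (243 : ℤ) ∣ 81 * tj 5 n - (11 * n * (ArithmeticFunction.sigma 3 n : ℤ) - 6 * (ArithmeticFunction.sigma 5 n : ℤ)) := by
  obtain ⟨B, hB⟩ := As_mod
  obtain ⟨M, hM⟩ := DAs
  obtain ⟨M', hM'⟩ := ex3_DCs
  have hD : D (As ^ 2 * Cs ^ 2) = 4 * (As * Cs ^ 2 * D As) + 2 * (As ^ 4 * Cs ^ 2) - 54 * (As * Cs ^ 5) := by
    rw [show As ^ 2 * Cs ^ 2 = (As * Cs) * (As * Cs) by ring, D_mul, D_mul]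
    linear_combination (2 * As * Cs) * bracket
  have hW : 81 * (As ^ 7 * Cs ^ 5) - (99 * D (As ^ 2 * Cs ^ 2) - 6 * (33 * (As ^ 4 * Cs ^ 2) +
      2268 * (As * Cs ^ 5))) = 243 * (B * As * (As ^ 5 + As ^ 4 + As ^ 3 + As ^ 2 + As + 1) * Cs ^ 5 +
        49 * As * Cs ^ 5 - 88 * As * Cs ^ 2 * M' - 44 * As * Cs ^ 2 * M) := by
    have h1 : As ^ 7 = As + 3 * (B * As * (As ^ 5 + As ^ 4 + As ^ 3 + As ^ 2 + As + 1)) := by
      have h2 : 3 * B = As - 1 := by rw [hB]; ring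
      linear_combination (-(As * (As ^ 5 + As ^ 4 + As ^ 3 + As ^ 2 + As + 1))) * h2
    rw [hD, hM, hM', h1]
    ring
  have h1 := congrArg (coeff n) hW
  rw [x3_num 243, map_sub, map_sub, x3_num 81, x3_num 99, x3_num 6, map_add, x3_num 33, x3_num 2268] at h1
  have h2 : coeff n (D (As ^ 2 * Cs ^ 2)) = (n : ℤ) * coeff n (As ^ 2 * Cs ^ 2) := by
    rw [D, coeff_mk]
  rw [h2] at h1
  rw [sigma3_two_mod hn, sigma5_two_mod hn, tj]
  set W : ℤ := coeff n (B * As * (As ^ 5 + As ^ 4 + As ^ 3 + As ^ 2 + As + 1) * Cs ^ 5 +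
        49 * As * Cs ^ 5 - 88 * As * Cs ^ 2 * M' - 44 * As * Cs ^ 2 * M) with hWd
  refine ⟨W, ?_⟩
  have h3 : (12 - 5 : ℕ) = 7 := rfl
  rw [h3]
  have h4 : (81 : ℤ) * coeff n (As ^ 7 * Cs ^ 5) - (99 * ((n : ℤ) * coeff n (As ^ 2 * Cs ^ 2)) -
      6 * (33 * coeff n (As ^ 4 * Cs ^ 2) + 2268 * coeff n (As * Cs ^ 5))) = 243 * W := h1
  linear_combination h4

end E8T
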