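import Pool.Agent.E8T.D4
import Pool.Agent.E8T.X3

/-!
# [E8T-X4] the final statements, stronger form
-/

set_option autoImplicit false

open PowerSeries
open Pool.Agent.MP130199 (shell IsDesign)

namespace E8T

private theorem x4_three {a b : ℤ} (h : (27 : ℤ) ∣ a - 8 * b) (ha : (3 : ℤ) ∣ a) : (3 : ℤ) ∣ b := by
  omega

/-- `prime_cond3` gives `p + 1 = 729 y`, `27 ∣ tj 5 p - 8 y`; `R5_mod` with `σ₃(p) = 1 + p³`, `σ₅(p) = 1 + p⁵`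
(`E8X.g2_sigma`) and `p = -1 mod 729` gives `243 ∣ 81 tj 5 p`, so `3 ∣ tj 5 p`, `3 ∣ y`. -/
theorem prime_cond7 {p : ℕ} (hp : p.Prime) (h : E8X.tau p = 0) :
    p % 3 = 2 ∧ ∃ z : ℤ, (p : ℤ) + 1 = 2187 * z ∧ (27 : ℤ) ∣ tj 5 p - 24 * z := by
  obtain ⟨h2, y, hy, hd⟩ := prime_cond3 hp h
  refine ⟨h2, ?_⟩
  have h5 := R5_mod h2
  rw [E8X.g2_sigma hp, E8X.g2_sigma hp] at h5
  have e1 : 11 * (p : ℤ) * (1 + (p : ℤ) ^ 3) - 6 * (1 + (p : ℤ) ^ 5) =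
      243 * (3 * y * (11 * (p : ℤ) * ((p : ℤ) ^ 2 - p + 1) -
        6 * ((p : ℤ) ^ 4 - (p : ℤ) ^ 3 + (p : ℤ) ^ 2 - p + 1))) := by
    have e2 : (11 * (p : ℤ) * (1 + (p : ℤ) ^ 3) - 6 * (1 + (p : ℤ) ^ 5)) = ((p : ℤ) + 1) *
        (11 * (p : ℤ) * ((p : ℤ) ^ 2 - p + 1) -
        6 * ((p : ℤ) ^ 4 - (p : ℤ) ^ 3 + (p : ℤ) ^ 2 - p + 1)) := by ring
    rw [e2, hy]
    ring
  rw [e1] at h5
  have h6 : (243 : ℤ) ∣ 81 * tj 5 p := by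
    have h7 := dvd_add h5 (Dvd.intro _ rfl : (243 : ℤ) ∣ 243 *
      (3 * y * (11 * (p : ℤ) * ((p : ℤ) ^ 2 - p + 1) -
        6 * ((p : ℤ) ^ 4 - (p : ℤ) ^ 3 + (p : ℤ) ^ 2 - p + 1))))
    rwa [sub_add_cancel] at h7
  have h8 : (3 : ℤ) ∣ tj 5 p := by
    obtain ⟨k, hk⟩ := h6
    exact ⟨k, by linarith⟩
  obtain ⟨z, hz⟩ := x4_three hd h8
  refine ⟨z, by rw [hy, hz]; ring, ?_⟩
  rw [hz] at hd
  have e : tj 5 p - 8 * (3 * z) = tj 5 p - 24 * z := by ring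
  rwa [e] at hd

/-- (2), from `design_cond3` and its proof: the prime is the one of `E8X.tau_zero_prime` -/
theorem design_cond7 {m : ℕ} (hm : 0 < m) (hd : IsDesign m 8) :
    ∃ p : ℕ, p.Prime ∧ Odd (m.factorization p) ∧
      8 * (p ^ 11 + 1) = 393923898 * R 5 p + 50296324194 * R 8 p + 284967167256 * R 11 p ∧
      (∃ z : ℕ, p + 1 = 3 ^ 7 * z ∧ R 5 p ≡ 24 * z [MOD 27]) ∧
      (∃ z : ℕ, p + 1 = 2 ^ 14 * z ∧ (E8X.reps p).card ≡ 11 * z [MOD 16]) := by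
  obtain ⟨p, hp, ho, h0⟩ := E8X.tau_zero_prime hm (E8X.tau_eq_zero hd)
  obtain ⟨h2, z, hz, hzd⟩ := prime_cond7 hp h0
  obtain ⟨w, hw, hwd⟩ := E8X.prime_cond hp h0
  refine ⟨p, hp, ho, ?_, ?_, ?_⟩
  · have h1 := main_id h2
    rw [h0, E8X.g2_sigma hp, tj_R 5 p (Or.inl rfl), tj_R 8 p (Or.inr (Or.inl rfl)),
      tj_R 11 p (Or.inr (Or.inr rfl))] at h1
    have h3 : (8 * ((p : ℤ) ^ 11 + 1)) =
        393923898 * (R 5 p : ℤ) + 50296324194 * (R 8 p : ℤ) + 284967167256 * (R 11 p : ℤ) := by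
      linarith
    exact_mod_cast h3
  · have hz0 : 0 ≤ z := by
      have : (0 : ℤ) ≤ p := Int.natCast_nonneg p
      omega
    obtain ⟨k, rfl⟩ := Int.eq_ofNat_of_zero_le hz0
    refine ⟨k, by norm_num; exact_mod_cast hz, ?_⟩
    rw [tj_R 5 p (Or.inl rfl)] at hzd
    refine ((Nat.modEq_iff_dvd (n := 27) (a := 24 * k) (b := R 5 p)).2 ?_).symm
    push_cast
    exact hzd
  · have hw0 : 0 ≤ w := by
      have : (0 : ℤ) ≤ p := Int.natCast_nonneg p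
      omega
    obtain ⟨k, rfl⟩ := Int.eq_ofNat_of_zero_le hw0
    refine ⟨k, by norm_num; exact_mod_cast hw, ?_⟩
    refine ((Nat.modEq_iff_dvd (n := 16) (a := 11 * k) (b := (E8X.reps p).card)).2 ?_).symm
    push_cast
    exact hwd

end E8T
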